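import Mathlib

set_option autoImplicit false

namespace Pool.Agent.Helper445.Count

open Module Submodule LinearMap.BilinForm

section dims

variable {F V : Type*} [Field F] [AddCommGroup V] [Module F V] [FiniteDimensional F V]

/-- dimension of the orthogonal complement -/
theorem finrank_orth (B : LinearMap.BilinForm F V) (W : Submodule F V) :
    finrank F (B.orthogonal W) + finrank F (W ⊔ B.ker : Submodule F V)
      = finrank F V + finrank F B.ker := by
  have h1 := LinearMap.BilinForm.finrank_add_finrank_orthogonal' (B := B) W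
  have h2 := Submodule.finrank_sup_add_finrank_inf_eq W B.ker
  omega

theorem sup_ker_le (B : LinearMap.BilinForm F V) (hB : B.IsSymm) (W : Submodule F V)
    (hW : W ≤ B.orthogonal W) : W ⊔ B.ker ≤ B.orthogonal W := by
  refine sup_le hW ?_
  intro x hx
  rw [LinearMap.BilinForm.mem_orthogonal_iff]
  intro w _
  rw [LinearMap.mem_ker] at hx
  rw [hB.eq, hx]
  rfl

theorem two_mul_le (B : LinearMap.BilinForm F V) (hB : B.IsSymm) (W : Submodule F V)
    (hW : W ≤ B.orthogonal W) :
    2 * finrank F (W ⊔ B.ker : Submodule F V) ≤ finrank F V + finrank F B.ker := by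
  have h1 := finrank_orth B W
  have h2 := Submodule.finrank_mono (sup_ker_le B hB W hW)
  omega

/-- If the form is not zero-dimensional on the orthogonal, there is an anisotropic vector. -/
theorem exists_aniso (B : LinearMap.BilinForm F V) (hB : B.IsSymm) (h2 : (2 : F) ≠ 0)
    (W : Submodule F V)
    (hW : 2 * finrank F (W ⊔ B.ker : Submodule F V) < finrank F V + finrank F B.ker) :
    ∃ u ∈ B.orthogonal W, B u u ≠ 0 := by
  by_contra hcon
  push Not at hcon
  have hle : B.orthogonal W ≤ B.orthogonal (B.orthogonal W) := by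
    intro x hx
    rw [LinearMap.BilinForm.mem_orthogonal_iff]
    intro y hy
    have h1 := hcon (x + y) (Submodule.add_mem _ hx hy)
    have h3 := hcon x hx
    have h4 := hcon y hy
    simp only [map_add, LinearMap.add_apply, h3, h4, zero_add, add_zero] at h1
    have h5 : B x y = B y x := hB.eq x y
    rw [h5] at h1
    have h6 : (2 : F) * B y x = 0 := by rw [two_mul]; exact h1
    exact (mul_eq_zero.mp h6).resolve_left h2
  have h1 := finrank_orth B W
  have h3 := finrank_orth B (B.orthogonal W)
  have h4 := Submodule.finrank_mono hle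
  have h5 : B.orthogonal W ⊔ B.ker = B.orthogonal W := by
    rw [sup_eq_left]
    intro x hx
    rw [LinearMap.BilinForm.mem_orthogonal_iff]
    intro w _
    rw [LinearMap.mem_ker] at hx
    rw [hB.eq, hx]; rfl
  rw [h5] at h3
  omega

end dims

section counts

variable {F V : Type*} [Field F] [Fintype F] [AddCommGroup V] [Module F V] [Fintype V]

open scoped Classical in
/-- In a space with an anisotropic vector few vectors are isotropic. -/
theorem card_isotropic (B : LinearMap.BilinForm F V) (hB : B.IsSymm) (U : Submodule F V)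
    (u : V) (hu : u ∈ U) (huu : B u u ≠ 0) :
    (Finset.univ.filter (fun v : V => v ∈ U ∧ B v v = 0)).card * Fintype.card F
      ≤ 2 * Fintype.card U := by
  -- double count pairs (v, t) with v in U, t in F and v + t u isotropic
  set S := Finset.univ.filter (fun v : V => v ∈ U ∧ B v v = 0) with hS
  set T := Finset.univ.filter (fun p : V × F => p.1 ∈ U ∧ B (p.1 + p.2 • u) (p.1 + p.2 • u) = 0)
    with hT
  have h1 : S.card * Fintype.card F ≤ T.card := by
    have : (S ×ˢ (Finset.univ : Finset F)).card = S.card * Fintype.card F := by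
      rw [Finset.card_product, Finset.card_univ]
    rw [← this]
    refine Finset.card_le_card_of_injOn (fun p => (p.1 - p.2 • u, p.2)) ?_ ?_
    · intro p hp
      simp only [Finset.coe_product, Set.mem_prod, Finset.mem_coe, hS, Finset.mem_filter,
        Finset.mem_univ, true_and, Finset.coe_univ, Set.mem_univ, and_true] at hp
      simp only [Finset.mem_coe, hT, Finset.mem_filter, Finset.mem_univ, true_and,
        sub_add_cancel]
      exact ⟨U.sub_mem hp.1 (U.smul_mem _ hu), hp.2⟩
    · intro p _ p' _ hpp
      simp only [Prod.mk.injEq] at hpp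
      ext
      · have := hpp.1
        rw [hpp.2] at this
        exact sub_left_injective this
      · exact hpp.2
  have h2 : T.card ≤ 2 * Fintype.card U := by
    have hmap : ∀ p ∈ T, p.1 ∈ Finset.univ.filter (fun v : V => v ∈ U) := by
      intro p hp
      simp only [hT, Finset.mem_filter, Finset.mem_univ, true_and] at hp ⊢
      exact hp.1
    rw [Finset.card_eq_sum_card_fiberwise hmap]
    have hb : ∀ v ∈ Finset.univ.filter (fun v : V => v ∈ U),
        (T.filter (fun p => p.1 = v)).card ≤ 2 := by
      intro v _
      -- the quadratic polynomial in t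
      have hq : ∀ t : F, B (v + t • u) (v + t • u) = B u u * (t * t) + (2 * B v u) * t + B v v := by
        intro t
        simp only [map_add, LinearMap.add_apply, map_smul, LinearMap.smul_apply, smul_eq_mul]
        have : B u v = B v u := hB.eq u v
        rw [this]; ring
      let P : Polynomial F := Polynomial.C (B u u) * Polynomial.X ^ 2 +
        Polynomial.C (2 * B v u) * Polynomial.X + Polynomial.C (B v v)
      have hP0 : P ≠ 0 := by
        intro h0
        have : P.coeff 2 = B u u := by
          simp [P, Polynomial.coeff_X, Polynomial.coeff_C]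
        rw [h0] at this
        simp at this
        exact huu this.symm
      have hdeg : P.natDegree ≤ 2 := by
        simp only [P]
        exact Polynomial.natDegree_quadratic_le
      have hle : (T.filter (fun p => p.1 = v)).card ≤ P.roots.toFinset.card := by
        refine Finset.card_le_card_of_injOn (fun p => p.2) ?_ ?_
        · intro p hp
          simp only [hT, Finset.coe_filter, Finset.mem_filter, Finset.mem_univ, true_and,
            Set.mem_setOf_eq] at hp
          simp only [Finset.mem_coe, Multiset.mem_toFinset]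
          rw [Polynomial.mem_roots hP0, Polynomial.IsRoot.def]
          have := hp.1.2
          rw [hp.2, hq] at this
          simp only [P, Polynomial.eval_add, Polynomial.eval_mul, Polynomial.eval_C,
            Polynomial.eval_pow, Polynomial.eval_X]
          rw [← this]; ring
        · intro p hp p' hp' hpp
          simp only [Finset.coe_filter, Set.mem_setOf_eq] at hp hp'
          ext
          · rw [hp.2, hp'.2]
          · exact hpp
      calc _ ≤ P.roots.toFinset.card := hle
        _ ≤ Multiset.card P.roots := Multiset.toFinset_card_le _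
        _ ≤ P.natDegree := Polynomial.card_roots' _
        _ ≤ 2 := hdeg
    calc ∑ v ∈ Finset.univ.filter (fun v : V => v ∈ U), (T.filter (fun p => p.1 = v)).card
        ≤ ∑ v ∈ Finset.univ.filter (fun v : V => v ∈ U), 2 := Finset.sum_le_sum hb
      _ = 2 * Fintype.card U := by
          rw [Finset.sum_const, smul_eq_mul, mul_comm, Fintype.card_subtype]
  exact h1.trans h2

open scoped Classical in
/-- number of isotropic `j`-tuples in the orthogonal of `W` -/
noncomputable def cnt (B : LinearMap.BilinForm F V) (W : Submodule F V) (j : ℕ) : ℕ :=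
  (Finset.univ.filter (fun M : Fin j → V =>
    (∀ a b, B (M a) (M b) = 0) ∧ ∀ a, M a ∈ B.orthogonal W)).card

open scoped Classical in
theorem cnt_succ_le (B : LinearMap.BilinForm F V) (hB : B.IsSymm) (W : Submodule F V) (j : ℕ) :
    cnt B W (j + 1) ≤ ∑ v ∈ Finset.univ.filter (fun v : V => v ∈ B.orthogonal W ∧ B v v = 0),
      cnt B (W ⊔ Submodule.span F {v}) j := by
  set T := Finset.univ.filter (fun M : Fin (j + 1) → V =>
    (∀ a b, B (M a) (M b) = 0) ∧ ∀ a, M a ∈ B.orthogonal W) with hT
  have hmap : ∀ M ∈ T, M 0 ∈ Finset.univ.filter (fun v : V => v ∈ B.orthogonal W ∧ B v v = 0) := by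
    intro M hM
    simp only [hT, Finset.mem_filter, Finset.mem_univ, true_and] at hM ⊢
    exact ⟨hM.2 0, hM.1 0 0⟩
  have : cnt B W (j + 1) = T.card := rfl
  rw [this, Finset.card_eq_sum_card_fiberwise hmap]
  refine Finset.sum_le_sum ?_
  intro v _
  unfold cnt
  refine Finset.card_le_card_of_injOn (fun M => Fin.tail M) ?_ ?_
  · intro M hM
    simp only [hT, Finset.coe_filter, Finset.mem_filter, Finset.mem_univ, true_and,
      Set.mem_setOf_eq] at hM ⊢
    obtain ⟨⟨hM1, hM2⟩, hM3⟩ := hM
    refine ⟨fun a b => hM1 _ _, fun a => ?_⟩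
    rw [LinearMap.BilinForm.mem_orthogonal_iff]
    intro w hw
    rw [Submodule.mem_sup] at hw
    obtain ⟨y, hy, z, hz, rfl⟩ := hw
    rw [Submodule.mem_span_singleton] at hz
    obtain ⟨c, rfl⟩ := hz
    have h1 : B y (M a.succ) = 0 := by
      have := hM2 a.succ
      rw [LinearMap.BilinForm.mem_orthogonal_iff] at this
      exact this y hy
    have h2 : B v (M a.succ) = 0 := by rw [← hM3]; exact hM1 _ _
    show B (y + c • v) (M a.succ) = 0
    rw [map_add, LinearMap.add_apply, map_smul, LinearMap.smul_apply, h1, h2]
    simp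
  · intro M hM M' hM' hMM
    simp only [Finset.coe_filter, Set.mem_setOf_eq] at hM hM'
    rw [← Fin.cons_self_tail M, ← Fin.cons_self_tail M', hM.2, hM'.2]
    simp only at hMM
    rw [hMM]

theorem cost_shift (t s : ℕ) :
    ∑ i ∈ Finset.range (s + 1), (t + i + 1) = (t + 1) + ∑ i ∈ Finset.range s, (t + 1 + i + 1) := by
  rw [Finset.sum_range_succ']
  simp only [add_zero]
  rw [add_comm]
  congr 1
  refine Finset.sum_congr rfl ?_
  intro i _
  ring

open scoped Classical in
/-- The main count of isotropic tuples. -/
theorem cnt_le (B : LinearMap.BilinForm F V) (hB : B.IsSymm) (h2 : (2 : F) ≠ 0) (ρ κ : ℕ)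
    (hκ : finrank F B.ker = κ) (hρ : finrank F V = κ + ρ) :
    ∀ (j : ℕ) (W : Submodule F V) (t c : ℕ), W ≤ B.orthogonal W →
      finrank F (W ⊔ B.ker : Submodule F V) = κ + t →
      (∀ s ≤ j, 2 * (t + s) ≤ ρ →
        c ≤ (∑ i ∈ Finset.range s, (t + i + 1)) + (j - s) * (ρ - (t + s))) →
      cnt B W j * Fintype.card F ^ c ≤ 4 ^ j * Fintype.card F ^ ((κ + ρ) * j) := by
  intro j
  induction j with
  | zero =>
    intro W t c hW ht hc
    have h2t := two_mul_le B hB W hW
    have := hc 0 le_rfl (by omega)
    simp only [Finset.range_zero, Finset.sum_empty, zero_add, Nat.sub_self, zero_mul,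
      Nat.le_zero] at this
    subst this
    have : cnt B W 0 = 1 := by
      unfold cnt
      rw [Finset.filter_true_of_mem]
      · simp
      · intro M _
        exact ⟨fun a => a.elim0, fun a => a.elim0⟩
    rw [this]; simp
  | succ j ih =>
    intro W t c hW ht hc
    have h2t := two_mul_le B hB W hW
    have hq1 : 1 ≤ Fintype.card F := Fintype.card_pos
    set q := Fintype.card F with hq
    set K := 4 ^ j * q ^ ((κ + ρ) * j) with hK
    set G := Finset.univ.filter (fun v : V => v ∈ B.orthogonal W ∧ B v v = 0) with hG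
    -- isotropy of the enlarged space
    have hiso : ∀ v ∈ G, W ⊔ Submodule.span F {v} ≤ B.orthogonal (W ⊔ Submodule.span F {v}) := by
      intro v hv
      simp only [hG, Finset.mem_filter, Finset.mem_univ, true_and] at hv
      obtain ⟨hv1, hv2⟩ := hv
      rw [LinearMap.BilinForm.mem_orthogonal_iff] at hv1
      intro x hx
      rw [LinearMap.BilinForm.mem_orthogonal_iff]
      intro y hy
      rw [Submodule.mem_sup] at hx hy
      obtain ⟨x1, hx1, x2, hx2, rfl⟩ := hx
      obtain ⟨y1, hy1, y2, hy2, rfl⟩ := hy
      rw [Submodule.mem_span_singleton] at hx2 hy2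
      obtain ⟨a, rfl⟩ := hx2
      obtain ⟨b, rfl⟩ := hy2
      have e1 : B y1 x1 = 0 := by
        have := hW hx1
        rw [LinearMap.BilinForm.mem_orthogonal_iff] at this
        exact this y1 hy1
      have e2 : B y1 v = 0 := hv1 y1 hy1
      have e3 : B v x1 = 0 := by
        have h := hv1 x1 hx1
        have h' : B v x1 = B x1 v := hB.eq v x1
        rw [h']; exact h
      simp only [map_add, LinearMap.add_apply, map_smul, LinearMap.smul_apply, e1, e2, e3, hv2,
        smul_zero, add_zero]
    have hsplit : ∑ v ∈ G, cnt B (W ⊔ Submodule.span F {v}) j =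
        ∑ v ∈ G.filter (fun v => v ∈ W ⊔ B.ker), cnt B (W ⊔ Submodule.span F {v}) j +
        ∑ v ∈ G.filter (fun v => ¬ v ∈ W ⊔ B.ker), cnt B (W ⊔ Submodule.span F {v}) j :=
      (Finset.sum_filter_add_sum_filter_not G _ _).symm
    have hstay : (∑ v ∈ G.filter (fun v => v ∈ W ⊔ B.ker), cnt B (W ⊔ Submodule.span F {v}) j)
        * q ^ c ≤ q ^ (κ + ρ) * K := by
      have hterm : ∀ v ∈ G.filter (fun v => v ∈ W ⊔ B.ker),
          cnt B (W ⊔ Submodule.span F {v}) j * q ^ (c - (ρ - t)) ≤ K := by
        intro v hv
        rw [Finset.mem_filter] at hv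
        refine ih (W ⊔ Submodule.span F {v}) t (c - (ρ - t)) (hiso v hv.1) ?_ ?_
        · have : (W ⊔ Submodule.span F {v}) ⊔ B.ker = W ⊔ B.ker := by
            apply le_antisymm
            · refine sup_le (sup_le le_sup_left ?_) le_sup_right
              rw [Submodule.span_singleton_le_iff_mem]
              exact hv.2
            · exact sup_le (le_sup_left.trans le_sup_left) le_sup_right
          rw [this]; exact ht
        · intro s hs hs2
          have h1 := hc s (by omega) hs2
          have h3 : j + 1 - s = (j - s) + 1 := by omega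
          rw [h3, add_mul, one_mul] at h1
          omega
      have hcard : (G.filter (fun v => v ∈ W ⊔ B.ker)).card ≤ q ^ (κ + t) := by
        have h1 : (G.filter (fun v => v ∈ W ⊔ B.ker)).card
            ≤ (Finset.univ.filter (fun v : V => v ∈ W ⊔ B.ker)).card := by
          apply Finset.card_le_card
          intro v hv
          rw [Finset.mem_filter] at hv ⊢
          exact ⟨Finset.mem_univ _, hv.2⟩
        have h3 : (Finset.univ.filter (fun v : V => v ∈ W ⊔ B.ker)).card = q ^ (κ + t) := by
          rw [← Fintype.card_subtype, ← ht, hq]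
          have := Module.card_eq_pow_finrank (K := F) (V := (W ⊔ B.ker : Submodule F V))
          convert this using 1
        omega
      calc (∑ v ∈ G.filter (fun v => v ∈ W ⊔ B.ker), cnt B (W ⊔ Submodule.span F {v}) j) * q ^ c
          ≤ (∑ v ∈ G.filter (fun v => v ∈ W ⊔ B.ker), cnt B (W ⊔ Submodule.span F {v}) j)
              * (q ^ (c - (ρ - t)) * q ^ (ρ - t)) := by
            apply Nat.mul_le_mul_left
            rw [← pow_add]
            exact Nat.pow_le_pow_right hq1 (by omega)
        _ = (∑ v ∈ G.filter (fun v => v ∈ W ⊔ B.ker), cnt B (W ⊔ Submodule.span F {v}) j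
              * q ^ (c - (ρ - t))) * q ^ (ρ - t) := by rw [← Finset.sum_mul]; ring
        _ ≤ (∑ v ∈ G.filter (fun v => v ∈ W ⊔ B.ker), K) * q ^ (ρ - t) := by
            apply Nat.mul_le_mul_right
            exact Finset.sum_le_sum hterm
        _ = (G.filter (fun v => v ∈ W ⊔ B.ker)).card * K * q ^ (ρ - t) := by
            rw [Finset.sum_const, smul_eq_mul]
        _ ≤ q ^ (κ + t) * K * q ^ (ρ - t) := by gcongr
        _ = q ^ (κ + t + (ρ - t)) * K := by rw [pow_add]; ring
        _ = q ^ (κ + ρ) * K := by congr 2; omega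
    have hinc : (∑ v ∈ G.filter (fun v => ¬ v ∈ W ⊔ B.ker), cnt B (W ⊔ Submodule.span F {v}) j)
        * q ^ c ≤ 2 * (q ^ (κ + ρ) * K) := by
      by_cases hne : (G.filter (fun v => ¬ v ∈ W ⊔ B.ker)).Nonempty
      swap
      · rw [Finset.not_nonempty_iff_eq_empty] at hne
        rw [hne]; simp
      have hdim : ∀ v ∈ G.filter (fun v => ¬ v ∈ W ⊔ B.ker),
          finrank F ((W ⊔ Submodule.span F {v}) ⊔ B.ker : Submodule F V) = κ + (t + 1) := by
        intro v hv
        rw [Finset.mem_filter] at hv
        have e : (W ⊔ Submodule.span F {v}) ⊔ B.ker = (W ⊔ B.ker) ⊔ Submodule.span F {v} := by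
          rw [sup_assoc, sup_comm (Submodule.span F {v}), ← sup_assoc]
        rw [e]
        have h1 := Submodule.finrank_sup_add_finrank_inf_eq (W ⊔ B.ker) (Submodule.span F {v})
        have hv0 : v ≠ 0 := by
          rintro rfl
          exact hv.2 (Submodule.zero_mem _)
        have h3 : finrank F (Submodule.span F {v}) = 1 := finrank_span_singleton hv0
        have h4 : (W ⊔ B.ker) ⊓ Submodule.span F {v} = ⊥ := by
          rw [eq_bot_iff]
          intro x hx
          rw [Submodule.mem_inf, Submodule.mem_span_singleton] at hx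
          obtain ⟨hx1, a, rfl⟩ := hx
          rw [Submodule.mem_bot]
          by_contra h0
          have ha : a ≠ 0 := by rintro rfl; simp at h0
          apply hv.2
          have := Submodule.smul_mem (W ⊔ B.ker) a⁻¹ hx1
          rwa [smul_smul, inv_mul_cancel₀ ha, one_smul] at this
        rw [h4, finrank_bot] at h1
        omega
      obtain ⟨v0, hv0⟩ := hne
      have h2t1 : 2 * (t + 1) ≤ ρ := by
        have h1 := two_mul_le B hB (W ⊔ Submodule.span F {v0})
          (hiso v0 (Finset.mem_filter.mp hv0).1)
        rw [hdim v0 hv0] at h1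
        omega
      have hterm : ∀ v ∈ G.filter (fun v => ¬ v ∈ W ⊔ B.ker),
          cnt B (W ⊔ Submodule.span F {v}) j * q ^ (c - (t + 1)) ≤ K := by
        intro v hv
        refine ih (W ⊔ Submodule.span F {v}) (t + 1) (c - (t + 1))
          (hiso v (Finset.mem_filter.mp hv).1) (hdim v hv) ?_
        intro s hs hs2
        have h1 := hc (s + 1) (by omega) (by omega)
        rw [cost_shift] at h1
        have e1 : j + 1 - (s + 1) = j - s := by omega
        have e2 : t + (s + 1) = t + 1 + s := by omega
        rw [e1, e2] at h1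
        omega
      obtain ⟨u, hu, huu⟩ := exists_aniso B hB h2 W (by omega)
      have hcard : (G.filter (fun v => ¬ v ∈ W ⊔ B.ker)).card * q ^ (t + 1)
          ≤ 2 * q ^ (κ + ρ) := by
        have h1 : (G.filter (fun v => ¬ v ∈ W ⊔ B.ker)).card ≤ G.card :=
          Finset.card_filter_le _ _
        have h3 := card_isotropic B hB (B.orthogonal W) u hu huu
        have h4 : Fintype.card (B.orthogonal W) = q ^ (ρ + κ - t) := by
          have := Module.card_eq_pow_finrank (K := F) (V := (B.orthogonal W : Submodule F V))
          have h5 := finrank_orth B W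
          have h6 : finrank F (B.orthogonal W) = ρ + κ - t := by omega
          rw [h6] at this
          convert this using 1
        have h7 : G.card * q ≤ 2 * q ^ (ρ + κ - t) := by
          rw [← h4]; convert h3 using 1
        calc (G.filter (fun v => ¬ v ∈ W ⊔ B.ker)).card * q ^ (t + 1)
            ≤ G.card * q ^ (t + 1) := Nat.mul_le_mul_right _ h1
          _ = (G.card * q) * q ^ t := by rw [pow_succ]; ring
          _ ≤ (2 * q ^ (ρ + κ - t)) * q ^ t := Nat.mul_le_mul_right _ h7
          _ = 2 * q ^ (ρ + κ - t + t) := by rw [pow_add]; ring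
          _ = 2 * q ^ (κ + ρ) := by congr 2; omega
      calc (∑ v ∈ G.filter (fun v => ¬ v ∈ W ⊔ B.ker), cnt B (W ⊔ Submodule.span F {v}) j) * q ^ c
          ≤ (∑ v ∈ G.filter (fun v => ¬ v ∈ W ⊔ B.ker), cnt B (W ⊔ Submodule.span F {v}) j)
              * (q ^ (c - (t + 1)) * q ^ (t + 1)) := by
            apply Nat.mul_le_mul_left
            rw [← pow_add]
            exact Nat.pow_le_pow_right hq1 (by omega)
        _ = (∑ v ∈ G.filter (fun v => ¬ v ∈ W ⊔ B.ker), cnt B (W ⊔ Submodule.span F {v}) j
              * q ^ (c - (t + 1))) * q ^ (t + 1) := by rw [← Finset.sum_mul]; ring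
        _ ≤ (∑ v ∈ G.filter (fun v => ¬ v ∈ W ⊔ B.ker), K) * q ^ (t + 1) := by
            apply Nat.mul_le_mul_right
            exact Finset.sum_le_sum hterm
        _ = (G.filter (fun v => ¬ v ∈ W ⊔ B.ker)).card * q ^ (t + 1) * K := by
            rw [Finset.sum_const, smul_eq_mul]; ring
        _ ≤ (2 * q ^ (κ + ρ)) * K := by gcongr
        _ = 2 * (q ^ (κ + ρ) * K) := by ring
    calc cnt B W (j + 1) * q ^ c
        ≤ (∑ v ∈ G, cnt B (W ⊔ Submodule.span F {v}) j) * q ^ c :=
          Nat.mul_le_mul_right _ (cnt_succ_le B hB W j)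
      _ ≤ q ^ (κ + ρ) * K + 2 * (q ^ (κ + ρ) * K) := by
          rw [hsplit, add_mul]; exact Nat.add_le_add hstay hinc
      _ ≤ 4 * (q ^ (κ + ρ) * K) := by omega
      _ = 4 ^ (j + 1) * q ^ ((κ + ρ) * (j + 1)) := by
          rw [hK]; ring

end counts

end Pool.Agent.Helper445.Count
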