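import Mathlib
import Pool.Agent.Helper445.Count

set_option autoImplicit false

namespace Pool.Agent.Helper445.SymCount

open Module Submodule

variable {F : Type*} [Field F] {n : ℕ}

/-- symmetric matrix attached to a function on unordered pairs -/
def symMat (c : Sym2 (Fin n) → F) : Fin n → Fin n → F := fun i j => c s(i, j)

theorem symMat_symm (c : Sym2 (Fin n) → F) (i j : Fin n) : symMat c i j = symMat c j i := by
  unfold symMat; rw [Sym2.eq_swap]

/-- the rows indexed by `I` span all rows -/
def Spans (I : Finset (Fin n)) (c : Sym2 (Fin n) → F) : Prop :=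
  ∀ j, symMat c j ∈ Submodule.span F (symMat c '' (I : Set (Fin n)))

theorem eq_of_spans (I : Finset (Fin n)) (c c' : Sym2 (Fin n) → F) (h : Spans I c)
    (h' : Spans I c') (heq : ∀ i ∈ I, ∀ j, symMat c i j = symMat c' i j) : c = c' := by
  have hrow : ∀ i ∈ I, symMat c i = symMat c' i := fun i hi => funext (heq i hi)
  have himg : symMat c '' (I : Set (Fin n)) = symMat c' '' (I : Set (Fin n)) := by
    apply Set.image_congr
    intro i hi
    exact hrow i hi
  have key : ∀ j, symMat c j = symMat c' j := by
    intro j
    have h1 := h j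
    have h2 := h' j
    rw [← himg] at h2
    -- difference is a combination of rows of `c` indexed by I
    have h3 : symMat c j - symMat c' j ∈ Submodule.span F (symMat c '' (I : Set (Fin n))) :=
      Submodule.sub_mem _ h1 h2
    rw [Submodule.mem_span_image_iff_exists_fun] at h3
    obtain ⟨t, ht, a, ha⟩ := h3
    -- b the vector of coefficients
    set b : Fin n → F := fun l => if hl : l ∈ t then a ⟨l, hl⟩ else 0 with hb
    have hw : symMat c j - symMat c' j = fun l => ∑ i, b i * symMat c i l := by
      rw [← ha]
      funext l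
      rw [Finset.sum_apply]
      have : ∑ i, b i * symMat c i l = ∑ i ∈ t, b i * symMat c i l := by
        symm
        apply Finset.sum_subset (Finset.subset_univ _)
        intro i _ hi
        simp [hb, hi]
      rw [this, ← Finset.sum_attach t]
      refine Finset.sum_congr rfl ?_
      intro i _
      simp [hb]
    -- w vanishes on I
    have hI : ∀ l ∈ I, ∑ i, b i * symMat c i l = 0 := by
      intro l hl
      have := congrFun hw l
      rw [← this, Pi.sub_apply, symMat_symm c j l, symMat_symm c' j l, heq l hl j, sub_self]
    -- the functional v ↦ ∑ i, b i * v i vanishes on rows in I, hence on all rows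
    have hall : ∀ l, ∑ i, b i * symMat c l i = 0 := by
      intro l
      let φ : (Fin n → F) →ₗ[F] F := ∑ i, b i • LinearMap.proj i
      have hφ : ∀ v : Fin n → F, φ v = ∑ i, b i * v i := by
        intro v
        simp [φ, LinearMap.sum_apply]
      have hle : Submodule.span F (symMat c '' (I : Set (Fin n))) ≤ LinearMap.ker φ := by
        rw [Submodule.span_le]
        rintro _ ⟨i, hi, rfl⟩
        rw [SetLike.mem_coe, LinearMap.mem_ker, hφ]
        rw [← hI i hi]
        refine Finset.sum_congr rfl ?_
        intro k _
        rw [symMat_symm c i k]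
      have := hle (h l)
      rw [LinearMap.mem_ker, hφ] at this
      exact this
    have hz : symMat c j - symMat c' j = 0 := by
      rw [hw]
      funext l
      rw [Pi.zero_apply, ← hall l]
      refine Finset.sum_congr rfl ?_
      intro k _
      rw [symMat_symm c k l]
    exact sub_eq_zero.mp hz
  funext z
  induction z using Sym2.ind with
  | _ x y => exact congrFun (key x) y

/-- every matrix has a spanning set of rows of size its row rank -/
theorem exists_spans (c : Sym2 (Fin n) → F) :
    ∃ I : Finset (Fin n), I.card = finrank F (Submodule.span F (Set.range (symMat c))) ∧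
      Spans I c := by
  obtain ⟨κ, a, ha, hspan, hli⟩ := exists_linearIndependent' F (symMat c)
  haveI : Finite κ := Finite.of_injective a ha
  haveI : Fintype κ := Fintype.ofFinite κ
  refine ⟨Finset.univ.map ⟨a, ha⟩, ?_, ?_⟩
  · rw [Finset.card_map, Finset.card_univ, ← hspan]
    rw [finrank_span_eq_card hli]
  · intro j
    have : symMat c '' ((Finset.univ.map ⟨a, ha⟩ : Finset (Fin n)) : Set (Fin n))
        = Set.range (symMat c ∘ a) := by
      ext v
      constructor
      · rintro ⟨i, hi, rfl⟩
        simp only [Finset.coe_map, Finset.coe_univ, Set.image_univ, Function.Embedding.coeFn_mk,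
          Set.mem_range] at hi
        obtain ⟨y, rfl⟩ := hi
        exact ⟨y, rfl⟩
      · rintro ⟨y, rfl⟩
        exact ⟨a y, by simp, rfl⟩
    rw [this, hspan]
    exact Submodule.subset_span ⟨j, rfl⟩

/-- pairs meeting `I` -/
def pairs (I : Finset (Fin n)) : Finset (Sym2 (Fin n)) := Finset.univ.sym2 \ (Iᶜ).sym2

theorem mem_pairs (I : Finset (Fin n)) (i j : Fin n) (hi : i ∈ I) : s(i, j) ∈ pairs I := by
  unfold pairs
  rw [Finset.mem_sdiff]
  refine ⟨by simp, ?_⟩
  intro h
  rw [Finset.mem_sym2_iff] at h
  have := h i (by simp)
  simp at this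
  exact this hi

theorem card_pairs (I : Finset (Fin n)) :
    (pairs I).card = (n + 1).choose 2 - (n - I.card + 1).choose 2 := by
  unfold pairs
  rw [Finset.card_sdiff_of_subset (Finset.sym2_mono (Finset.subset_univ _)), Finset.card_sym2,
    Finset.card_sym2, Finset.card_univ, Fintype.card_fin, Finset.card_compl, Fintype.card_fin]

variable [Fintype F]

open scoped Classical in
theorem card_spans_le (I : Finset (Fin n)) :
    (Finset.univ.filter (fun c : Sym2 (Fin n) → F => Spans I c)).card
      ≤ Fintype.card F ^ ((n + 1).choose 2 - (n - I.card + 1).choose 2) := by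
  rw [← card_pairs I]
  have : Fintype.card F ^ (pairs I).card = Fintype.card (pairs I → F) := by
    rw [Fintype.card_fun, Fintype.card_coe]
  rw [this, ← Finset.card_univ]
  refine Finset.card_le_card_of_injOn (fun c z => c z.1) (fun _ _ => Finset.mem_coe.mpr (Finset.mem_univ _)) ?_
  intro c hc c' hc' hcc
  simp only [Finset.coe_filter, Finset.mem_univ, true_and, Set.mem_setOf_eq] at hc hc'
  apply eq_of_spans I c c' hc hc'
  intro i hi j
  have := congrFun hcc ⟨s(i, j), mem_pairs I i j hi⟩
  exact this

open scoped Classical in
theorem card_rank_le (ρ : ℕ) (hρ : ρ ≤ n) :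
    (Finset.univ.filter (fun c : Sym2 (Fin n) → F =>
      finrank F (Submodule.span F (Set.range (symMat c))) = ρ)).card
      ≤ 2 ^ n * Fintype.card F ^ ((n + 1).choose 2 - (n - ρ + 1).choose 2) := by
  have h1 : Finset.univ.filter (fun c : Sym2 (Fin n) → F =>
      finrank F (Submodule.span F (Set.range (symMat c))) = ρ) ⊆
      (Finset.powersetCard ρ (Finset.univ : Finset (Fin n))).biUnion
        (fun I => Finset.univ.filter (fun c : Sym2 (Fin n) → F => Spans I c)) := by
    intro c hc
    rw [Finset.mem_filter] at hc
    obtain ⟨I, hI, hs⟩ := exists_spans c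
    rw [Finset.mem_biUnion]
    refine ⟨I, ?_, by rw [Finset.mem_filter]; exact ⟨Finset.mem_univ _, hs⟩⟩
    rw [Finset.mem_powersetCard]
    exact ⟨Finset.subset_univ _, by rw [hI, hc.2]⟩
  calc _ ≤ _ := Finset.card_le_card h1
    _ ≤ ∑ I ∈ Finset.powersetCard ρ (Finset.univ : Finset (Fin n)),
        (Finset.univ.filter (fun c : Sym2 (Fin n) → F => Spans I c)).card :=
      Finset.card_biUnion_le
    _ ≤ ∑ I ∈ Finset.powersetCard ρ (Finset.univ : Finset (Fin n)),
        Fintype.card F ^ ((n + 1).choose 2 - (n - ρ + 1).choose 2) := by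
      refine Finset.sum_le_sum ?_
      intro I hI
      rw [Finset.mem_powersetCard] at hI
      rw [← hI.2]
      exact card_spans_le I
    _ = (Finset.powersetCard ρ (Finset.univ : Finset (Fin n))).card *
        Fintype.card F ^ ((n + 1).choose 2 - (n - ρ + 1).choose 2) := by
      rw [Finset.sum_const, smul_eq_mul]
    _ ≤ 2 ^ n * Fintype.card F ^ ((n + 1).choose 2 - (n - ρ + 1).choose 2) := by
      apply Nat.mul_le_mul_right
      rw [Finset.card_powersetCard, Finset.card_univ, Fintype.card_fin]
      exact Nat.choose_le_two_pow n ρ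

end Pool.Agent.Helper445.SymCount
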