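import Mathlib
import Pool.Agent.Helper445.Count
import Pool.Agent.Helper445.SymCount

set_option autoImplicit false

namespace Pool.Agent.Helper445.Exist

open Module Submodule Pool.Agent.Helper445.Count Pool.Agent.Helper445.SymCount

variable {F : Type*} [Field F] {n : ℕ}

/-- the bilinear value attached to a function on unordered pairs -/
def bval {R : Type*} [CommRing R] {n : ℕ} (c : Sym2 (Fin n) → R) (x y : Fin n → R) : R :=
  ∑ j, (∑ i, x i * c s(i, j)) * y j

/-- the bilinear form -/
def bil (c : Sym2 (Fin n) → F) : LinearMap.BilinForm F (Fin n → F) :=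
  LinearMap.mk₂ F (fun x y => bval c x y)
    (by
      intro x x' y
      simp only [bval, Pi.add_apply, add_mul, Finset.sum_add_distrib])
    (by
      intro a x y
      simp only [bval, Pi.smul_apply, smul_eq_mul, Finset.mul_sum, Finset.sum_mul, mul_assoc])
    (by
      intro x y y'
      simp only [bval, Pi.add_apply, mul_add, Finset.sum_add_distrib])
    (by
      intro a x y
      simp only [bval, Pi.smul_apply, smul_eq_mul, Finset.mul_sum]
      refine Finset.sum_congr rfl ?_
      intro j _
      ring)

@[simp] theorem bil_apply (c : Sym2 (Fin n) → F) (x y : Fin n → F) : bil c x y = bval c x y := rfl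

theorem bil_symm (c : Sym2 (Fin n) → F) : (bil c).IsSymm := by
  constructor
  intro x y
  simp only [RingHom.id_apply, bil_apply, bval, Finset.sum_mul]
  rw [Finset.sum_comm]
  refine Finset.sum_congr rfl ?_
  intro i _
  refine Finset.sum_congr rfl ?_
  intro j _
  rw [Sym2.eq_swap (a := i) (b := j)]
  ring

theorem ker_bil (c : Sym2 (Fin n) → F) :
    (bil c).ker = LinearMap.ker (Fintype.linearCombination F (symMat c)) := by
  ext x
  rw [LinearMap.mem_ker, LinearMap.mem_ker]
  constructor
  · intro h
    funext j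
    have := congrArg (fun f => f (Pi.single j 1)) h
    simp only [bil_apply, bval, LinearMap.zero_apply] at this
    rw [Finset.sum_eq_single j] at this
    · rw [Fintype.linearCombination_apply, Finset.sum_apply]
      simpa [symMat] using this
    · intro b _ hb
      simp [Pi.single_eq_of_ne hb]
    · simp
  · intro h
    refine LinearMap.ext fun y => ?_
    rw [LinearMap.zero_apply, bil_apply, bval]
    apply Finset.sum_eq_zero
    intro j _
    have := congrFun h j
    rw [Fintype.linearCombination_apply, Finset.sum_apply] at this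
    have h2 : ∑ i, x i * c s(i, j) = 0 := by
      simpa [symMat] using this
    rw [h2, zero_mul]

theorem finrank_ker_bil (c : Sym2 (Fin n) → F) :
    finrank F (bil c).ker + finrank F (Submodule.span F (Set.range (symMat c))) = n := by
  rw [ker_bil]
  have h := LinearMap.finrank_range_add_finrank_ker (Fintype.linearCombination F (symMat c))
  rw [Fintype.range_linearCombination, finrank_fin_fun] at h
  omega

theorem symMat_eq_zero_of_rank (c : Sym2 (Fin n) → F)
    (h : finrank F (Submodule.span F (Set.range (symMat c))) = 0) : c = 0 := by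
  rw [Submodule.finrank_eq_zero, Submodule.span_eq_bot] at h
  funext z
  induction z using Sym2.ind with
  | _ x y => exact congrFun (h _ ⟨x, rfl⟩) y

theorem choose_sub (ρ : ℕ) (hρ : ρ ≤ n) :
    2 * ((n + 1).choose 2 - (n - ρ + 1).choose 2) = ρ * (2 * n + 1 - ρ) := by
  obtain ⟨k, rfl⟩ := Nat.exists_eq_add_of_le hρ
  have h1 : ∀ a : ℕ, 2 * (a + 1).choose 2 = (a + 1) * a := by
    intro a
    have := Nat.triangle_succ a
    rw [Nat.choose_two_right]
    simp only [Nat.add_sub_cancel]
    have h2 : 2 ∣ (a + 1) * a := by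
      rw [mul_comm]; exact (Nat.even_mul_succ_self a).two_dvd
    omega
  have h2 := h1 (ρ + k)
  have h3 := h1 (ρ + k - ρ)
  have h4 : ρ + k - ρ = k := by omega
  rw [h4] at h3 ⊢
  have h5 : 2 * (ρ + k) + 1 - ρ = ρ + 2 * k + 1 := by omega
  rw [h5, Nat.mul_sub, h2, h3]
  have : (ρ + k + 1) * (ρ + k) = ρ * (ρ + 2 * k + 1) + (k + 1) * k := by ring
  omega

open scoped Classical in
/-- number of isotropic tuples for a given form -/
noncomputable def zc [Fintype F] (r : ℕ) (c : Sym2 (Fin n) → F) : ℕ :=
  (Finset.univ.filter (fun M : Fin r → (Fin n → F) => ∀ a b, bval c (M a) (M b) = 0)).card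

theorem sum_range_succ_two (s : ℕ) : 2 * ∑ i ∈ Finset.range s, (0 + i + 1) = s * (s + 1) := by
  induction s with
  | zero => simp
  | succ s ih => rw [Finset.sum_range_succ, mul_add, ih]; ring

/-- criterion -/
def Crit (n r m : ℕ) : Prop :=
  ∀ ρ, 1 ≤ ρ → ρ ≤ n → ∀ h ≤ r, 2 * h ≤ ρ →
    ρ * (2 * n + 1 - ρ) ≤ m * (2 * ((r - h) * (ρ - h)) + h * (h + 1))

theorem zc_pow_le [Fintype F] (h2 : (2 : F) ≠ 0) (r m : ℕ) (hm : 0 < m) (hc : Crit n r m)
    (c : Sym2 (Fin n) → F) (ρ : ℕ) (hρ1 : 1 ≤ ρ)
    (hρ : finrank F (Submodule.span F (Set.range (symMat c))) = ρ) :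
    zc r c ^ m * Fintype.card F ^ ((n + 1).choose 2 - (n - ρ + 1).choose 2)
      ≤ 4 ^ (r * m) * Fintype.card F ^ (n * r * m) := by
  have hker := finrank_ker_bil c
  have hρn : ρ ≤ n := by omega
  set κ := finrank F (bil c).ker with hκ
  have hn : finrank F (Fin n → F) = κ + ρ := by rw [finrank_fin_fun]; omega
  set A := (n + 1).choose 2 - (n - ρ + 1).choose 2 with hA
  have hA2 : 2 * A = ρ * (2 * n + 1 - ρ) := choose_sub ρ hρn
  have hW : (⊥ : Submodule F (Fin n → F)) ≤ (bil c).orthogonal ⊥ := bot_le
  have ht : finrank F ((⊥ : Submodule F (Fin n → F)) ⊔ (bil c).ker : Submodule F (Fin n → F))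
      = κ + 0 := by rw [bot_sup_eq]; rfl
  have key := cnt_le (bil c) (bil_symm c) h2 ρ κ rfl hn r ⊥ 0 ((A + m - 1) / m) hW ht (by
    intro s hs h2s
    have h1 := hc ρ hρ1 hρn s hs (by omega)
    rw [← hA2] at h1
    have h3 := sum_range_succ_two s
    have h4 : A ≤ m * (∑ i ∈ Finset.range s, (0 + i + 1) + (r - s) * (ρ - (0 + s))) := by
      have e : (0 + s) = s := by omega
      rw [e]
      nlinarith [h1, h3]
    rw [Nat.div_le_iff_le_mul_add_pred hm]
    omega)
  have hcnt : cnt (bil c) ⊥ r = zc r c := by
    classical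
    unfold cnt zc
    congr 1
    apply Finset.filter_congr
    intro M _
    have : ∀ a, M a ∈ (bil c).orthogonal ⊥ := by
      intro a
      rw [LinearMap.BilinForm.orthogonal_bot]
      exact Submodule.mem_top
    constructor
    · intro h; exact h.1
    · intro h; exact ⟨h, this⟩
  rw [hcnt] at key
  have hq1 : 1 ≤ Fintype.card F := Fintype.card_pos
  have hAm : A ≤ (A + m - 1) / m * m := by
    have := Nat.div_add_mod (A + m - 1) m
    have h5 := Nat.mod_lt (A + m - 1) hm
    rw [mul_comm]
    omega
  calc zc r c ^ m * Fintype.card F ^ A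
      ≤ zc r c ^ m * Fintype.card F ^ ((A + m - 1) / m * m) := by
        apply Nat.mul_le_mul_left
        exact Nat.pow_le_pow_right hq1 hAm
    _ = (zc r c * Fintype.card F ^ ((A + m - 1) / m)) ^ m := by rw [mul_pow, ← pow_mul]
    _ ≤ (4 ^ r * Fintype.card F ^ ((κ + ρ) * r)) ^ m := Nat.pow_le_pow_left key m
    _ = 4 ^ (r * m) * Fintype.card F ^ (n * r * m) := by
        rw [mul_pow, ← pow_mul, ← pow_mul]
        have : κ + ρ = n := by omega
        rw [this]

open scoped Classical in
theorem sum_zc_le [Fintype F] (h2 : (2 : F) ≠ 0) (r m : ℕ) (hm : 0 < m) (hc : Crit n r m) :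
    ∑ c ∈ Finset.univ.filter (fun c : Sym2 (Fin n) → F => c ≠ 0), zc r c ^ m
      ≤ (n + 1) * (2 ^ n * 4 ^ (r * m)) * Fintype.card F ^ (n * r * m) := by
  have hq1 : 1 ≤ Fintype.card F := Fintype.card_pos
  have hmap : ∀ c ∈ Finset.univ.filter (fun c : Sym2 (Fin n) → F => c ≠ 0),
      finrank F (Submodule.span F (Set.range (symMat c))) ∈ Finset.range (n + 1) := by
    intro c _
    have := finrank_ker_bil c
    rw [Finset.mem_range]; omega
  rw [← Finset.sum_fiberwise_of_maps_to hmap]
  have hb : ∀ ρ ∈ Finset.range (n + 1),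
      ∑ c ∈ (Finset.univ.filter (fun c : Sym2 (Fin n) → F => c ≠ 0)).filter
        (fun c => finrank F (Submodule.span F (Set.range (symMat c))) = ρ), zc r c ^ m
      ≤ (2 ^ n * 4 ^ (r * m)) * Fintype.card F ^ (n * r * m) := by
    intro ρ hρ
    rw [Finset.mem_range] at hρ
    set A := (n + 1).choose 2 - (n - ρ + 1).choose 2 with hA
    rcases Nat.eq_zero_or_pos ρ with h0 | hpos
    · subst h0
      rw [Finset.sum_eq_zero]
      · exact Nat.zero_le _
      · intro c hc'
        exfalso
        rw [Finset.mem_filter, Finset.mem_filter] at hc'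
        exact hc'.1.2 (symMat_eq_zero_of_rank c hc'.2)
    · have h1 : (∑ c ∈ (Finset.univ.filter (fun c : Sym2 (Fin n) → F => c ≠ 0)).filter
          (fun c => finrank F (Submodule.span F (Set.range (symMat c))) = ρ), zc r c ^ m)
          * Fintype.card F ^ A ≤
          (2 ^ n * 4 ^ (r * m)) * Fintype.card F ^ (n * r * m) * Fintype.card F ^ A := by
        rw [Finset.sum_mul]
        calc _ ≤ ∑ c ∈ (Finset.univ.filter (fun c : Sym2 (Fin n) → F => c ≠ 0)).filter
              (fun c => finrank F (Submodule.span F (Set.range (symMat c))) = ρ),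
              4 ^ (r * m) * Fintype.card F ^ (n * r * m) := by
              refine Finset.sum_le_sum ?_
              intro c hc'
              rw [Finset.mem_filter] at hc'
              exact zc_pow_le h2 r m hm hc c ρ hpos hc'.2
          _ = ((Finset.univ.filter (fun c : Sym2 (Fin n) → F => c ≠ 0)).filter
              (fun c => finrank F (Submodule.span F (Set.range (symMat c))) = ρ)).card *
              (4 ^ (r * m) * Fintype.card F ^ (n * r * m)) := by
              rw [Finset.sum_const, smul_eq_mul]
          _ ≤ (2 ^ n * Fintype.card F ^ A) * (4 ^ (r * m) * Fintype.card F ^ (n * r * m)) := by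
              apply Nat.mul_le_mul_right
              refine le_trans (Finset.card_le_card ?_) (card_rank_le (F := F) ρ (by omega))
              intro c hc'
              rw [Finset.mem_filter] at hc' ⊢
              exact ⟨Finset.mem_univ _, hc'.2⟩
          _ = _ := by ring
      exact Nat.le_of_mul_le_mul_right h1 (Nat.pow_pos hq1)
  calc _ ≤ ∑ ρ ∈ Finset.range (n + 1), (2 ^ n * 4 ^ (r * m)) * Fintype.card F ^ (n * r * m) :=
        Finset.sum_le_sum hb
    _ = _ := by rw [Finset.sum_const, Finset.card_range, smul_eq_mul]; ring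

/-- Over a large finite field of odd characteristic there are `m` tuples with no common form. -/
theorem exists_tuple [Fintype F] (h2 : (2 : F) ≠ 0) (r m : ℕ) (hm : 0 < m) (hc : Crit n r m)
    (hbig : (n + 1) * (2 ^ n * 4 ^ (r * m)) + 1 < Fintype.card F) :
    ∃ M : Fin m → Fin r → Fin n → F, ∀ c : Sym2 (Fin n) → F,
      (∀ i a b, bval c (M i a) (M i b) = 0) → c = 0 := by
  classical
  by_contra hcon
  push Not at hcon
  set q := Fintype.card F with hq
  -- set of pairs
  set X := (Finset.univ : Finset ((Sym2 (Fin n) → F) × (Fin m → Fin r → Fin n → F))).filter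
    (fun p => p.1 ≠ 0 ∧ ∀ i a b, bval p.1 (p.2 i a) (p.2 i b) = 0) with hX
  have hlow : (q - 1) * q ^ (n * r * m) ≤ X.card := by
    have h1 : (((Finset.univ : Finset F).erase 0) ×ˢ
        (Finset.univ : Finset (Fin m → Fin r → Fin n → F))).card = (q - 1) * q ^ (n * r * m) := by
      rw [Finset.card_product, Finset.card_erase_of_mem (Finset.mem_univ _), Finset.card_univ,
        Finset.card_univ]
      simp only [Fintype.card_fun, Fintype.card_fin]
      rw [← pow_mul, ← pow_mul, ← hq, mul_assoc]
    rw [← h1]
    choose c0 hc0 hc1 using hcon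
    refine Finset.card_le_card_of_injOn (fun p => (p.1 • c0 p.2, p.2)) ?_ ?_
    · rintro ⟨a, M⟩ hp
      simp only [Finset.coe_product, Set.mem_prod, Finset.mem_coe, Finset.mem_erase,
        Finset.mem_univ, and_true] at hp
      simp only [hX, Finset.mem_coe, Finset.mem_filter, Finset.mem_univ, true_and]
      refine ⟨smul_ne_zero hp (hc1 M), ?_⟩
      intro i x y
      have := hc0 M i x y
      simp only [bval, Pi.smul_apply, smul_eq_mul] at this ⊢
      have h4 : ∀ j, (∑ k, M i x k * (a * c0 M s(k, j))) * M i y j =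
          a * ((∑ k, M i x k * c0 M s(k, j)) * M i y j) := by
        intro j
        rw [← mul_assoc a, Finset.mul_sum]
        congr 1
        refine Finset.sum_congr rfl ?_
        intro k _
        ring
      rw [Finset.sum_congr rfl (fun j _ => h4 j), ← Finset.mul_sum, this, mul_zero]
    · rintro ⟨a, M⟩ _ ⟨a', M'⟩ _ hpp
      simp only [Prod.mk.injEq] at hpp
      obtain ⟨h3, rfl⟩ := hpp
      ext
      · simp only
        exact smul_left_injective F (hc1 M) h3
      · rfl
  have hup : X.card = ∑ c ∈ Finset.univ.filter (fun c : Sym2 (Fin n) → F => c ≠ 0),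
      zc r c ^ m := by
    have hmap : ∀ p ∈ X, p.1 ∈ Finset.univ.filter (fun c : Sym2 (Fin n) → F => c ≠ 0) := by
      intro p hp
      simp only [hX, Finset.mem_filter, Finset.mem_univ, true_and] at hp ⊢
      exact hp.1
    rw [Finset.card_eq_sum_card_fiberwise hmap]
    refine Finset.sum_congr rfl ?_
    intro c hc'
    rw [Finset.mem_filter] at hc'
    unfold zc
    have : (Finset.univ.filter (fun M : Fin r → (Fin n → F) => ∀ a b, bval c (M a) (M b) = 0)).card ^ m
        = (Fintype.piFinset (fun _ : Fin m =>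
          Finset.univ.filter (fun M : Fin r → (Fin n → F) =>
            ∀ a b, bval c (M a) (M b) = 0))).card := by
      rw [Fintype.card_piFinset]
      simp
    rw [this]
    refine Finset.card_bij (fun p _ => p.2) ?_ ?_ ?_
    · intro p hp
      simp only [hX, Finset.mem_filter, Finset.mem_univ, true_and] at hp
      simp only [Fintype.mem_piFinset, Finset.mem_filter, Finset.mem_univ, true_and]
      obtain ⟨⟨_, h1⟩, rfl⟩ := hp
      exact h1
    · intro p hp p' hp' hpp
      simp only [Finset.mem_filter] at hp hp'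
      ext1
      · rw [hp.2, hp'.2]
      · exact hpp
    · intro M hM
      simp only [Fintype.mem_piFinset, Finset.mem_filter, Finset.mem_univ, true_and] at hM
      refine ⟨(c, M), ?_, rfl⟩
      simp only [hX, Finset.mem_filter, Finset.mem_univ, true_and, and_true]
      exact ⟨hc'.2, hM⟩
  have h3 := sum_zc_le (F := F) h2 r m hm hc
  rw [← hup, ← hq] at h3
  have h4 : (q - 1) * q ^ (n * r * m) ≤ (n + 1) * (2 ^ n * 4 ^ (r * m)) * q ^ (n * r * m) :=
    hlow.trans h3
  have hqpos : 0 < q := Fintype.card_pos
  have h5 := Nat.le_of_mul_le_mul_right h4 (Nat.pow_pos hqpos)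
  omega

end Pool.Agent.Helper445.Exist
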