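import Mathlib
import Pool.Agent.Helper445.Exist

set_option autoImplicit false

namespace Pool.Agent.Helper445.Arith

open Pool.Agent.Helper445.Exist

/-- the integer version of the count exponent -/
theorem f_anti (r ρ h h' : ℤ) (h0 : 0 ≤ h) (hh : h ≤ h') (hr : h' ≤ r) (hρ : 2 * h' ≤ ρ) :
    2 * ((r - h') * (ρ - h')) + h' * (h' + 1) ≤ 2 * ((r - h) * (ρ - h)) + h * (h + 1) := by
  rcases eq_or_lt_of_le hh with rfl | hlt
  · exact le_refl _
  · have h1 : 0 ≤ 2 * r + 2 * ρ - 3 * h - 3 * h' - 1 := by linarith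
    nlinarith [mul_nonneg (sub_nonneg.mpr hh) h1]

theorem crit_iff_int (n r m : ℕ) (H : ∀ ρ h : ℤ, 1 ≤ ρ → ρ ≤ n → 0 ≤ h → h ≤ r → 2 * h ≤ ρ →
    ρ * (2 * n + 1 - ρ) ≤ m * (2 * ((r - h) * (ρ - h)) + h * (h + 1))) : Crit n r m := by
  intro ρ h1 h2 h hr h3
  have := H ρ h (by exact_mod_cast h1) (by exact_mod_cast h2) (by positivity)
    (by exact_mod_cast hr) (by exact_mod_cast h3)
  have e1 : ((2 * n + 1 - ρ : ℕ) : ℤ) = 2 * n + 1 - ρ := by
    rw [Nat.cast_sub (by omega)]; push_cast; ring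
  have e2 : ((r - h : ℕ) : ℤ) = r - h := by rw [Nat.cast_sub hr]
  have e3 : ((ρ - h : ℕ) : ℤ) = ρ - h := by rw [Nat.cast_sub (by omega)]
  zify
  rw [e1, e2, e3]
  exact this

theorem crit_of (n r m : ℕ)
    (h1 : ∀ h : ℤ, 1 ≤ h → h ≤ r → 2 * h ≤ n → 2 * (2 * (n : ℤ) + 1 - 2 * h) ≤ m * (2 * r + 1 - h))
    (h2 : ∀ h : ℤ, 0 ≤ h → h ≤ r → 2 * h + 1 ≤ n →
      2 * (2 * h + 1) * ((n : ℤ) - h) ≤ m * ((h + 1) * (2 * r - h)))
    (h3 : 2 * r ≤ n → n * (n + 1) ≤ m * (r * (r + 1))) : Crit n r m := by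
  apply crit_iff_int
  intro ρ h hρ1 hρn h0 hr hh
  -- reduce to the largest admissible value
  have key : ∃ h' : ℤ, h ≤ h' ∧ h' ≤ r ∧ 2 * h' ≤ ρ ∧
      ρ * (2 * n + 1 - ρ) ≤ m * (2 * ((r - h') * (ρ - h')) + h' * (h' + 1)) := by
    by_cases hc : 2 * (r : ℤ) ≤ ρ
    · refine ⟨r, hr, le_refl _, hc, ?_⟩
      have h4 : (n : ℤ) * (n + 1) ≤ m * (r * (r + 1)) := by
        exact_mod_cast h3 (by omega)
      have h5 : ρ * (2 * n + 1 - ρ) ≤ (n : ℤ) * (n + 1) := by nlinarith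
      have h6 : (m : ℤ) * (2 * (((r : ℤ) - r) * (ρ - r)) + r * (r + 1)) = m * (r * (r + 1)) := by
        ring
      rw [h6]; linarith
    · push Not at hc
      obtain ⟨q, hq | hq⟩ : ∃ q, ρ = 2 * q ∨ ρ = 2 * q + 1 := ⟨ρ / 2, by omega⟩
      · subst hq
        refine ⟨q, by omega, by omega, le_refl _, ?_⟩
        have := h1 q (by omega) (by omega) hρn
        have hq0 : 0 ≤ q := by omega
        have h7 := mul_le_mul_of_nonneg_left this hq0
        calc 2 * q * (2 * n + 1 - 2 * q) = q * (2 * (2 * (n : ℤ) + 1 - 2 * q)) := by ring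
          _ ≤ q * (m * (2 * r + 1 - q)) := h7
          _ = m * (2 * ((r - q) * (2 * q - q)) + q * (q + 1)) := by ring
      · subst hq
        refine ⟨q, by omega, by omega, by omega, ?_⟩
        have := h2 q (by omega) (by omega) hρn
        calc (2 * q + 1) * (2 * n + 1 - (2 * q + 1)) = 2 * (2 * q + 1) * ((n : ℤ) - q) := by ring
          _ ≤ m * ((q + 1) * (2 * r - q)) := this
          _ = m * (2 * ((r - q) * (2 * q + 1 - q)) + q * (q + 1)) := by ring
  obtain ⟨h', a1, a2, a3, a4⟩ := key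
  refine a4.trans ?_
  exact mul_le_mul_of_nonneg_left (f_anti r ρ h h' h0 a1 a2 a3) (by positivity)

theorem crit_three (n r : ℕ) (hn : 3 ≤ n) (h : 2 * n ≤ 3 * r + 1) : Crit n r 3 := by
  have h' : 2 * (n : ℤ) ≤ 3 * r + 1 := by exact_mod_cast h
  apply crit_of
  · intro h h1 h2 h3
    push_cast
    linarith
  · intro h h1 h2 h3
    push_cast
    have hn' : (3 : ℤ) ≤ n := by exact_mod_cast hn
    have e : 0 ≤ h * h - 3 * h + 2 * n - 2 := by
      rcases (by omega : h ≤ 0 ∨ h = 1 ∨ h = 2 ∨ 3 ≤ h) with h4 | h4 | h4 | h4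
      · have : h = 0 := by omega
        subst this; linarith
      · subst h4; linarith
      · subst h4; linarith
      · nlinarith
    nlinarith [mul_nonneg (by linarith : (0:ℤ) ≤ h + 1) (by linarith : (0:ℤ) ≤ 3 * r + 1 - 2 * n)]
  · intro h1
    have : r * 2 ≤ 3 * r := by omega
    have h3 : n ≤ 2 * r := by omega
    have h4 : n = 2 * r := by omega
    omega

theorem crit_four (n r : ℕ) (h : n ≤ 2 * r) : Crit n r 4 := by
  have h' : (n : ℤ) ≤ 2 * r := by exact_mod_cast h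
  apply crit_of
  · intro h h1 h2 h3
    push_cast
    linarith
  · intro h h1 h2 h3
    push_cast
    nlinarith [mul_nonneg (by linarith : (0:ℤ) ≤ h + 1) (by linarith : (0:ℤ) ≤ 2 * r - n)]
  · intro h1
    have h4 : n = 2 * r := by omega
    subst h4
    nlinarith

theorem crit_big (n r m : ℕ) (hr : 1 ≤ r) (h : 2 * r + 1 ≤ n)
    (hm : n * (n + 1) ≤ m * (r * (r + 1))) : Crit n r m := by
  have h' : 2 * (r : ℤ) + 1 ≤ n := by exact_mod_cast h
  have hm' : (n : ℤ) * (n + 1) ≤ m * (r * (r + 1)) := by exact_mod_cast hm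
  have hr' : (1 : ℤ) ≤ r := by exact_mod_cast hr
  have hrr : (0 : ℤ) < r * (r + 1) := by positivity
  apply crit_of
  · intro h h1 h2 h3
    have g : 2 * (2 * (n : ℤ) + 1 - 2 * h) * (r * (r + 1)) ≤ n * (n + 1) * (2 * r + 1 - h) := by
      -- linear in h, check at h = 0 and h = r
      have a0 : 2 * (2 * (n : ℤ) + 1) * (r * (r + 1)) ≤ n * (n + 1) * (2 * r + 1) := by
        obtain ⟨t, ht⟩ : ∃ t : ℤ, (n : ℤ) = 2 * r + 1 + t := ⟨n - (2 * r + 1), by ring⟩
        have ht0 : 0 ≤ t := by linarith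
        rw [ht]
        have : 0 ≤ t * r := by positivity
        have : 0 ≤ t * t * r := by positivity
        have : 0 ≤ t * r * r := by positivity
        nlinarith
      have a1 : 2 * (2 * (n : ℤ) + 1 - 2 * r) * (r * (r + 1)) ≤ n * (n + 1) * (r + 1) := by
        have : 0 ≤ ((n - 2 * r) * (n - 2 * r) + (n - 2 * r) : ℤ) := by
          have : (0 : ℤ) ≤ n - 2 * r := by linarith
          positivity
        nlinarith
      -- r * g(h) = (r - h) * g(0) + h * g(r)
      have b0 := mul_le_mul_of_nonneg_left a0 (by linarith : (0 : ℤ) ≤ r - h)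
      have b1 := mul_le_mul_of_nonneg_left a1 (by linarith : (0 : ℤ) ≤ h)
      have b2 : (r : ℤ) * (2 * (2 * (n : ℤ) + 1 - 2 * h) * (r * (r + 1)))
          ≤ r * (n * (n + 1) * (2 * r + 1 - h)) := by linarith
      exact le_of_mul_le_mul_left b2 (by linarith)
    have g2 : 2 * (2 * (n : ℤ) + 1 - 2 * h) * (r * (r + 1)) ≤ m * (2 * r + 1 - h) * (r * (r + 1)) := by
      have := mul_le_mul_of_nonneg_right hm' (by linarith : (0:ℤ) ≤ 2 * r + 1 - h)
      linarith
    exact le_of_mul_le_mul_right g2 hrr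
  · intro h h1 h2 h3
    have g : 2 * (2 * h + 1) * ((n : ℤ) - h) * (r * (r + 1)) ≤ n * (n + 1) * ((h + 1) * (2 * r - h)) := by
      -- concave in h
      have a0 : 0 ≤ (n : ℤ) * (n + 1) * (2 * r) - 2 * n * (r * (r + 1)) := by
        have : 0 ≤ (2 * n * r * (n - r) : ℤ) := by
          have : (0 : ℤ) ≤ n - r := by linarith
          positivity
        linarith
      have a1 : 0 ≤ (n : ℤ) * (n + 1) * ((r + 1) * r) - 2 * (2 * r + 1) * (n - r) * (r * (r + 1)) := by
        have e1 : 0 ≤ ((n - 2 * r) * (n - 2 * r - 1) : ℤ) := by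
          have : (0 : ℤ) ≤ n - 2 * r - 1 := by linarith
          have : (0 : ℤ) ≤ n - 2 * r := by linarith
          positivity
        have := mul_nonneg hrr.le e1
        linarith
      have a2 : 0 ≤ (n : ℤ) * (n + 1) - 4 * (r * (r + 1)) := by nlinarith
      -- r g(h) = (r-h) g(0) + h g(r) + r h (r-h) * (n(n+1) - 4 r (r+1))
      have b0 := mul_nonneg (by linarith : (0 : ℤ) ≤ r - h) a0
      have b1 := mul_nonneg h1 a1
      have b2 := mul_nonneg (mul_nonneg (mul_nonneg (by linarith : (0:ℤ) ≤ r) h1)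
        (by linarith : (0 : ℤ) ≤ r - h)) a2
      have b3 : (r : ℤ) * (2 * (2 * h + 1) * ((n : ℤ) - h) * (r * (r + 1)))
          ≤ r * (n * (n + 1) * ((h + 1) * (2 * r - h))) := by linarith
      exact le_of_mul_le_mul_left b3 (by linarith)
    have g2 : 2 * (2 * h + 1) * ((n : ℤ) - h) * (r * (r + 1))
        ≤ m * ((h + 1) * (2 * r - h)) * (r * (r + 1)) := by
      have := mul_le_mul_of_nonneg_right hm'
        (mul_nonneg (by linarith : (0:ℤ) ≤ h + 1) (by linarith : (0:ℤ) ≤ 2 * r - h))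
      linarith
    exact le_of_mul_le_mul_right g2 hrr
  · intro _
    exact hm

end Pool.Agent.Helper445.Arith
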