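import Mathlib
import Pool.Agent.Helper445.Exist

set_option autoImplicit false

namespace Pool.Agent.Helper445.Lift

open Pool.Agent.Helper445.Exist

theorem bval_expand {R : Type*} [CommRing R] {n : ℕ} (c : Sym2 (Fin n) → R) (x y : Fin n → R) :
    bval c x y = ∑ z, bval (Pi.single z 1) x y * c z := by
  have h : ∀ i j : Fin n, c s(i, j) = ∑ z, (Pi.single z (1 : R) : Sym2 (Fin n) → R) s(i, j) * c z := by
    intro i j
    rw [Finset.sum_eq_single s(i, j)]
    · simp
    · intro z _ hz
      rw [Pi.single_apply, if_neg (Ne.symm hz), zero_mul]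
    · simp
  have h1 : bval c x y
      = ∑ j, ∑ i, ∑ z, x i * (Pi.single z (1 : R) : Sym2 (Fin n) → R) s(i, j) * y j * c z := by
    unfold bval
    refine Finset.sum_congr rfl ?_
    intro j _
    rw [Finset.sum_mul]
    refine Finset.sum_congr rfl ?_
    intro i _
    rw [h i j, Finset.mul_sum, Finset.sum_mul]
    refine Finset.sum_congr rfl ?_
    intro z _
    ring
  have h2 : ∀ z, bval (Pi.single z 1) x y * c z
      = ∑ j, ∑ i, x i * (Pi.single z (1 : R) : Sym2 (Fin n) → R) s(i, j) * y j * c z := by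
    intro z
    unfold bval
    rw [Finset.sum_mul]
    refine Finset.sum_congr rfl ?_
    intro j _
    rw [Finset.sum_mul, Finset.sum_mul]
  rw [h1, Finset.sum_congr rfl (fun z _ => h2 z), Finset.sum_comm]
  have h3 : ∀ j : Fin n, ∑ i, ∑ z, x i * (Pi.single z (1 : R) : Sym2 (Fin n) → R) s(i, j) * y j * c z
      = ∑ z, ∑ i, x i * (Pi.single z (1 : R) : Sym2 (Fin n) → R) s(i, j) * y j * c z := by
    intro j
    exact Finset.sum_comm
  have h4 : ∑ j, ∑ i, ∑ z, x i * (Pi.single z (1 : R) : Sym2 (Fin n) → R) s(i, j) * y j * c z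
      = ∑ z, ∑ j, ∑ i, x i * (Pi.single z (1 : R) : Sym2 (Fin n) → R) s(i, j) * y j * c z := by
    rw [Finset.sum_congr rfl (fun j _ => h3 j), Finset.sum_comm]
  rw [← h4, Finset.sum_comm]

theorem bval_map {R S : Type*} [CommRing R] [CommRing S] (f : R →+* S) {n : ℕ}
    (c : Sym2 (Fin n) → R) (x y : Fin n → R) :
    f (bval c x y) = bval (fun z => f (c z)) (fun i => f (x i)) (fun i => f (y i)) := by
  simp [bval, map_sum, map_mul]

theorem single_map {R S : Type*} [CommRing R] [CommRing S] (f : R →+* S) {n : ℕ}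
    (z : Sym2 (Fin n)) :
    (fun w => f ((Pi.single z 1 : Sym2 (Fin n) → R) w)) = (Pi.single z 1 : Sym2 (Fin n) → S) := by
  funext w
  by_cases h : w = z
  · subst h; simp
  · simp [Pi.single_eq_of_ne h]

/-- coefficient matrix -/
def coef {R : Type*} [CommRing R] {n r m : ℕ} (M : Fin m → Fin r → Fin n → R) :
    Matrix (Fin m × Fin r × Fin r) (Sym2 (Fin n)) R :=
  fun t z => bval (Pi.single z 1) (M t.1 t.2.1) (M t.1 t.2.2)

theorem coef_mulVec {R : Type*} [CommRing R] {n r m : ℕ} (M : Fin m → Fin r → Fin n → R)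
    (c : Sym2 (Fin n) → R) (t : Fin m × Fin r × Fin r) :
    (coef M).mulVec c t = bval c (M t.1 t.2.1) (M t.1 t.2.2) := by
  rw [bval_expand c]
  rfl

theorem coef_map {R S : Type*} [CommRing R] [CommRing S] (f : R →+* S) {n r m : ℕ}
    (M : Fin m → Fin r → Fin n → R) :
    (coef M).map f = coef (fun i a j => f (M i a j)) := by
  ext t z
  rw [Matrix.map_apply]
  unfold coef
  rw [bval_map, single_map]

theorem exists_real_tuple (n r m : ℕ) (hm : 0 < m) (hc : Crit n r m) :
    ∃ M : Fin m → Fin r → Fin n → ℝ, ∀ c : Sym2 (Fin n) → ℝ,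
      (∀ i a b, bval c (M i a) (M i b) = 0) → c = 0 := by
  classical
  obtain ⟨p, hp1, hp⟩ := Nat.exists_infinite_primes ((n + 1) * (2 ^ n * 4 ^ (r * m)) + 3)
  have : Fact p.Prime := ⟨hp⟩
  have hp2 : 2 < p := by omega
  have h2 : (2 : ZMod p) ≠ 0 := by
    intro h
    have : ((2 : ℕ) : ZMod p) = 0 := by exact_mod_cast h
    rw [ZMod.natCast_eq_zero_iff] at this
    exact absurd (Nat.le_of_dvd (by norm_num) this) (by omega)
  obtain ⟨M, hM⟩ := exists_tuple (F := ZMod p) (n := n) h2 r m hm hc (by rw [ZMod.card]; omega)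
  set Mz : Fin m → Fin r → Fin n → ℤ := fun i a j => ((M i a j).val : ℤ) with hMz
  have hcast : ∀ x : ZMod p, ((x.val : ℤ) : ZMod p) = x := by
    intro x
    rw [Int.cast_natCast, ZMod.natCast_zmod_val]
  have hMF : (coef Mz).map (Int.castRingHom (ZMod p)) = coef M := by
    rw [coef_map]
    congr 1
    funext i a j
    simp only [hMz]
    exact hcast _
  -- injectivity mod p
  have hinj : Function.Injective (Matrix.mulVecLin (coef M)) := by
    rw [← LinearMap.ker_eq_bot, LinearMap.ker_eq_bot']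
    intro c hc0
    apply hM c
    intro i a b
    have := congrFun hc0 (i, a, b)
    rw [Matrix.mulVecLin_apply, coef_mulVec] at this
    exact this
  obtain ⟨g, hg⟩ := LinearMap.exists_leftInverse_of_injective _ (LinearMap.ker_eq_bot.mpr hinj)
  have hL : LinearMap.toMatrix' g * coef M = 1 := by
    have h3 := congrArg LinearMap.toMatrix' hg
    rw [LinearMap.toMatrix'_comp, LinearMap.toMatrix'_id] at h3
    rw [← h3]
    congr 1
    rw [← Matrix.toLin'_apply']
    simp
  set L := LinearMap.toMatrix' g with hLdef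
  set Lz : Matrix (Sym2 (Fin n)) (Fin m × Fin r × Fin r) ℤ := fun i j => ((L i j).val : ℤ) with hLz
  have hLF : Lz.map (Int.castRingHom (ZMod p)) = L := by
    ext i j
    rw [Matrix.map_apply]
    exact hcast _
  have hdet : (Lz * coef Mz).det ≠ 0 := by
    intro h0
    have h4 : ((Lz * coef Mz).map (Int.castRingHom (ZMod p))).det = 1 := by
      rw [Matrix.map_mul, hLF, hMF, hL, Matrix.det_one]
    rw [← RingHom.mapMatrix_apply, ← RingHom.map_det, h0, map_zero] at h4
    exact zero_ne_one h4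
  refine ⟨fun i a j => (Mz i a j : ℝ), ?_⟩
  intro c hc0
  have hMR : (coef Mz).map (Int.castRingHom ℝ) = coef (fun i a j => (Mz i a j : ℝ)) := by
    rw [coef_map]; rfl
  have hz : (coef (fun i a j => (Mz i a j : ℝ))).mulVec c = 0 := by
    funext t
    rw [coef_mulVec]
    exact hc0 _ _ _
  have hdetR : ((Lz * coef Mz).map (Int.castRingHom ℝ)).det ≠ 0 := by
    rw [← RingHom.mapMatrix_apply, ← RingHom.map_det]
    simpa using hdet
  apply Matrix.eq_zero_of_mulVec_eq_zero hdetR
  rw [Matrix.map_mul, hMR, ← Matrix.mulVec_mulVec, hz, Matrix.mulVec_zero]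

end Pool.Agent.Helper445.Lift
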