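import Mathlib
import Pool.Agent.Helper445.Lift
import Pool.Agent.Helper445.Arith

set_option autoImplicit false

namespace Pool.Agent.Helper445.Quad

open Module Pool.Agent.Helper445.Exist Pool.Agent.Helper445.Lift Pool.Agent.Helper445.Arith
open scoped RealInnerProductSpace

/-- no nonzero quadratic form vanishes on all the orthogonal complements -/
def QuadFree {E : Type*} [NormedAddCommGroup E] [InnerProductSpace ℝ E]
    (𝒮 : Set (Submodule ℝ E)) : Prop :=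
  ∀ T : E →ₗ[ℝ] E, T.IsSymmetric → (∀ S ∈ 𝒮, ∀ v ∈ Sᗮ, ⟪T v, v⟫ = 0) → T = 0

section general

variable {E : Type*} [NormedAddCommGroup E] [InnerProductSpace ℝ E]

/-- rank one operator -/
noncomputable def dy (s t : E) : E →ₗ[ℝ] E := (innerₗ E s).smulRight t

theorem inner_dy (s t x y : E) : ⟪dy s t x, y⟫ = ⟪s, x⟫ * ⟪t, y⟫ := by
  simp [dy, inner_smul_left]

/-- symmetrised rank one operator -/
noncomputable def sy (s t : E) : E →ₗ[ℝ] E := dy s t + dy t s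

theorem inner_sy (s t x y : E) : ⟪sy s t x, y⟫ = ⟪s, x⟫ * ⟪t, y⟫ + ⟪t, x⟫ * ⟪s, y⟫ := by
  simp only [sy, LinearMap.add_apply, inner_add_left, inner_dy]

theorem sy_symm (s t : E) : (sy s t).IsSymmetric := by
  intro x y
  rw [real_inner_comm (sy s t y) x, inner_sy, inner_sy]
  ring

theorem not_quadFree_of_pair (𝒮 : Set (Submodule ℝ E)) (s t : E) (hs : s ≠ 0) (ht : t ≠ 0)
    (h : ∀ S ∈ 𝒮, s ∈ S ∨ t ∈ S) : ¬ QuadFree 𝒮 := by
  intro hq
  have h0 : sy s t = 0 := by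
    apply hq _ (sy_symm s t)
    intro S hS v hv
    rw [inner_sy]
    rcases h S hS with h1 | h1
    · rw [(Submodule.mem_orthogonal S v).mp hv s h1]; ring
    · rw [(Submodule.mem_orthogonal S v).mp hv t h1]; ring
  have h1 : ∀ x, ⟪s, x⟫ * ⟪t, x⟫ = 0 := by
    intro x
    have := inner_sy s t x x
    rw [h0] at this
    simp only [LinearMap.zero_apply, inner_zero_left] at this
    linarith
  have hs2 : (0 : ℝ) < ⟪s, s⟫ := real_inner_self_pos.mpr hs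
  have ht2 : (0 : ℝ) < ⟪t, t⟫ := real_inner_self_pos.mpr ht
  have h2 : ⟪t, s⟫ = (0 : ℝ) := by
    rcases mul_eq_zero.mp (h1 s) with h | h
    · exact absurd h hs2.ne'
    · exact h
  have h3 := h1 (s + t)
  rw [inner_add_right, inner_add_right, real_inner_comm t s, h2] at h3
  have : (0 : ℝ) < ⟪s, s⟫ * ⟪t, t⟫ := mul_pos hs2 ht2
  linarith

theorem exists_inner_ne [FiniteDimensional ℝ E] (f w : E) (h : f ∉ Submodule.span ℝ {w}) :
    ∃ a, ⟪w, a⟫ = (0 : ℝ) ∧ ⟪f, a⟫ ≠ (0 : ℝ) := by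
  by_contra hcon
  push Not at hcon
  apply h
  rw [← Submodule.orthogonal_orthogonal (Submodule.span ℝ {w})]
  rw [Submodule.mem_orthogonal']
  intro u hu
  exact hcon u (Submodule.mem_orthogonal_singleton_iff_inner_right.mp hu)

theorem exists_inner_ne_ne [FiniteDimensional ℝ E] (f g w : E)
    (h : f ∉ Submodule.span ℝ {w}) (h' : g ∉ Submodule.span ℝ {w}) :
    ∃ a, ⟪w, a⟫ = (0 : ℝ) ∧ ⟪f, a⟫ ≠ (0 : ℝ) ∧ ⟪g, a⟫ ≠ (0 : ℝ) := by
  obtain ⟨a, ha, ha'⟩ := exists_inner_ne f w h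
  obtain ⟨b, hb, hb'⟩ := exists_inner_ne g w h'
  by_cases h1 : ⟪g, a⟫ = (0 : ℝ)
  · by_cases h2 : ⟪f, b⟫ = (0 : ℝ)
    · refine ⟨a + b, ?_, ?_, ?_⟩
      · rw [inner_add_right, ha, hb, add_zero]
      · rw [inner_add_right, h2, add_zero]; exact ha'
      · rw [inner_add_right, h1, zero_add]; exact hb'
    · exact ⟨b, hb, h2, hb'⟩
  · exact ⟨a, ha, ha', h1⟩

/-- a nonzero vector of a nonzero submodule -/
theorem exists_ne_of_finrank (S : Submodule ℝ E) {k : ℕ} (hk : 1 ≤ k) (h : finrank ℝ S = k) :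
    ∃ s ∈ S, s ≠ 0 := by
  apply S.exists_mem_ne_zero_of_ne_bot
  rintro rfl
  rw [finrank_bot] at h
  omega

theorem not_quadFree_three [FiniteDimensional ℝ E] (S₁ S₂ S₃ : Submodule ℝ E) (k : ℕ) (hk : 1 ≤ k)
    (h1 : finrank ℝ S₁ = k) (h2 : finrank ℝ S₂ = k) (h3 : finrank ℝ S₃ = k)
    (h : finrank ℝ E + 2 ≤ 3 * k) : ¬ QuadFree ({S₁, S₂, S₃} : Set (Submodule ℝ E)) := by
  obtain ⟨t₁, ht₁, ht₁'⟩ := exists_ne_of_finrank S₁ hk h1
  obtain ⟨t₂, ht₂, ht₂'⟩ := exists_ne_of_finrank S₂ hk h2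
  obtain ⟨t₃, ht₃, ht₃'⟩ := exists_ne_of_finrank S₃ hk h3
  by_cases h12 : S₁ ⊓ S₂ = ⊥
  swap
  · obtain ⟨s, hs, hs'⟩ := Submodule.exists_mem_ne_zero_of_ne_bot h12
    apply not_quadFree_of_pair _ s t₃ hs' ht₃'
    intro S hS
    rcases hS with rfl | rfl | rfl
    · exact Or.inl hs.1
    · exact Or.inl hs.2
    · exact Or.inr ht₃
  by_cases h13 : S₁ ⊓ S₃ = ⊥
  swap
  · obtain ⟨s, hs, hs'⟩ := Submodule.exists_mem_ne_zero_of_ne_bot h13
    apply not_quadFree_of_pair _ s t₂ hs' ht₂'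
    intro S hS
    rcases hS with rfl | rfl | rfl
    · exact Or.inl hs.1
    · exact Or.inr ht₂
    · exact Or.inl hs.2
  by_cases h23 : S₂ ⊓ S₃ = ⊥
  swap
  · obtain ⟨s, hs, hs'⟩ := Submodule.exists_mem_ne_zero_of_ne_bot h23
    apply not_quadFree_of_pair _ s t₁ hs' ht₁'
    intro S hS
    rcases hS with rfl | rfl | rfl
    · exact Or.inr ht₁
    · exact Or.inl hs.1
    · exact Or.inl hs.2
  -- the main case
  let L : (S₂ × S₁ × S₃) →ₗ[ℝ] E :=
    LinearMap.coprod S₂.subtype (LinearMap.coprod (-S₁.subtype) (-S₃.subtype))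
  have hL : ∀ u : S₂ × S₁ × S₃, L u = (u.1 : E) - (u.2.1 : E) - (u.2.2 : E) := by
    intro u
    simp only [L, LinearMap.coprod_apply, LinearMap.neg_apply, Submodule.subtype_apply]
    abel
  have hker : 2 ≤ finrank ℝ (LinearMap.ker L) := by
    have e1 := L.finrank_range_add_finrank_ker
    have e2 : finrank ℝ (LinearMap.range L) ≤ finrank ℝ E := Submodule.finrank_le _
    have e3 : finrank ℝ (S₂ × S₁ × S₃) = 3 * k := by
      rw [finrank_prod, finrank_prod, h1, h2, h3]; ring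
    omega
  obtain ⟨u, hu⟩ := exists_linearIndependent_of_le_finrank hker
  have hz : ∀ w : LinearMap.ker L, ((w : S₂ × S₁ × S₃).1 : E) = 0 → w = 0 := by
    intro w hw
    have h4 : L w = 0 := w.2
    rw [hL, hw, zero_sub] at h4
    have h5 : ((w : S₂ × S₁ × S₃).2.1 : E) = -((w : S₂ × S₁ × S₃).2.2 : E) := by
      have h5' := sub_eq_zero.mp h4
      rw [← h5', neg_neg]
    have h6 : ((w : S₂ × S₁ × S₃).2.1 : E) ∈ S₁ ⊓ S₃ := by
      refine ⟨(w : S₂ × S₁ × S₃).2.1.2, ?_⟩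
      rw [h5]
      exact S₃.neg_mem (w : S₂ × S₁ × S₃).2.2.2
    rw [h13, Submodule.mem_bot] at h6
    rw [h6] at h5
    have h7 : ((w : S₂ × S₁ × S₃).2.2 : E) = 0 := by
      have := h5.symm
      rwa [neg_eq_zero] at this
    apply Subtype.ext
    exact Prod.ext (Subtype.ext hw) (Prod.ext (Subtype.ext h6) (Subtype.ext h7))
  have hz' : ∀ w : LinearMap.ker L, ((w : S₂ × S₁ × S₃).2.1 : E) = 0 → w = 0 := by
    intro w hw
    apply hz w
    have h4 : L w = 0 := w.2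
    rw [hL, hw, sub_zero] at h4
    have h5 := sub_eq_zero.mp h4
    have h6 : ((w : S₂ × S₁ × S₃).1 : E) ∈ S₂ ⊓ S₃ := by
      refine ⟨(w : S₂ × S₁ × S₃).1.2, ?_⟩
      rw [h5]
      exact (w : S₂ × S₁ × S₃).2.2.2
    rw [h23, Submodule.mem_bot] at h6
    exact h6
  set f₁ : E := ((u 0 : S₂ × S₁ × S₃).1 : E) with hf₁
  set g₁ : E := ((u 0 : S₂ × S₁ × S₃).2.1 : E) with hg₁
  set f₂ : E := ((u 1 : S₂ × S₁ × S₃).1 : E) with hf₂
  set g₂ : E := ((u 1 : S₂ × S₁ × S₃).2.1 : E) with hg₂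
  have hne : u 1 ≠ 0 := hu.ne_zero 1
  have hfs : f₁ ∉ Submodule.span ℝ {f₂} := by
    intro hmem
    obtain ⟨a, ha⟩ := Submodule.mem_span_singleton.mp hmem
    have h4 : u 0 - a • u 1 = 0 := by
      apply hz
      have : (((u 0 - a • u 1 : LinearMap.ker L) : S₂ × S₁ × S₃).1 : E) = f₁ - a • f₂ := by
        simp [hf₁, hf₂]
      rw [this, ha, sub_self]
    have h5 := Fintype.linearIndependent_iff.mp hu ![1, -a] (by
      rw [Fin.sum_univ_two]
      simp only [Matrix.cons_val_zero, Matrix.cons_val_one, one_smul, neg_smul]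
      rw [← sub_eq_add_neg]
      exact h4) 0
    simp at h5
  have hgs : g₂ ∉ Submodule.span ℝ {f₂} := by
    intro hmem
    obtain ⟨a, ha⟩ := Submodule.mem_span_singleton.mp hmem
    have h6 : g₂ ∈ S₁ ⊓ S₂ := by
      refine ⟨(u 1 : S₂ × S₁ × S₃).2.1.2, ?_⟩
      rw [← ha]
      exact S₂.smul_mem _ (u 1 : S₂ × S₁ × S₃).1.2
    rw [h12, Submodule.mem_bot] at h6
    exact hne (hz' _ h6)
  obtain ⟨x, hx1, hx2, hx3⟩ := exists_inner_ne_ne f₁ g₂ f₂ hfs hgs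
  intro hq
  have hT : sy f₁ g₂ - sy f₂ g₁ = 0 := by
    apply hq _ ((sy_symm _ _).sub (sy_symm _ _))
    intro S hS v hv
    rw [LinearMap.sub_apply, inner_sub_left, inner_sy, inner_sy]
    rcases hS with hS | hS | hS <;> rw [hS] at hv
    · have e1 : ⟪g₁, v⟫ = (0 : ℝ) :=
        (Submodule.mem_orthogonal _ v).mp hv g₁ (u 0 : S₂ × S₁ × S₃).2.1.2
      have e2 : ⟪g₂, v⟫ = (0 : ℝ) :=
        (Submodule.mem_orthogonal _ v).mp hv g₂ (u 1 : S₂ × S₁ × S₃).2.1.2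
      rw [e1, e2]; ring
    · have e1 : ⟪f₁, v⟫ = (0 : ℝ) :=
        (Submodule.mem_orthogonal _ v).mp hv f₁ (u 0 : S₂ × S₁ × S₃).1.2
      have e2 : ⟪f₂, v⟫ = (0 : ℝ) :=
        (Submodule.mem_orthogonal _ v).mp hv f₂ (u 1 : S₂ × S₁ × S₃).1.2
      rw [e1, e2]; ring
    · have e1 : ⟪f₁, v⟫ = ⟪g₁, v⟫ := by
        have h4 : L (u 0) = 0 := (u 0).2
        rw [hL] at h4
        have h5 := congrArg (fun z => ⟪z, v⟫) h4
        simp only [inner_sub_left, inner_zero_left] at h5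
        have h6 := (Submodule.mem_orthogonal _ v).mp hv _ (u 0 : S₂ × S₁ × S₃).2.2.2
        rw [h6] at h5
        linarith
      have e2 : ⟪f₂, v⟫ = ⟪g₂, v⟫ := by
        have h4 : L (u 1) = 0 := (u 1).2
        rw [hL] at h4
        have h5 := congrArg (fun z => ⟪z, v⟫) h4
        simp only [inner_sub_left, inner_zero_left] at h5
        have h6 := (Submodule.mem_orthogonal _ v).mp hv _ (u 1 : S₂ × S₁ × S₃).2.2.2
        rw [h6] at h5
        linarith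
      rw [e1, e2]; ring
  have h8 : ⟪(sy f₁ g₂ - sy f₂ g₁) x, x⟫ = (0 : ℝ) := by
    rw [hT]; simp
  rw [LinearMap.sub_apply, inner_sub_left, inner_sy, inner_sy, hx1] at h8
  have h9 : ⟪f₁, x⟫ * ⟪g₂, x⟫ = (0 : ℝ) := by linarith
  rcases mul_eq_zero.mp h9 with h | h
  · exact hx2 h
  · exact hx3 h

end general

end Pool.Agent.Helper445.Quad
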