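import Mathlib
import Pool.Agent.Helper445.Quad

set_option autoImplicit false

namespace Pool.Agent.Helper445.MeasA

open MeasureTheory Module Pool.Agent.Helper445.Quad
open scoped RealInnerProductSpace ENNReal

variable {V : Type*} [NormedAddCommGroup V] [InnerProductSpace ℝ V] [FiniteDimensional ℝ V]
  [MeasurableSpace V] [BorelSpace V]

/-- the X-ray of a set parallel to a subspace -/
noncomputable def xray (S : Submodule ℝ V) (E : Set V) (x : (Sᗮ : Submodule ℝ V)) : ℝ≥0∞ :=
  volume {s : S | (x : V) + (s : V) ∈ E}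

theorem mp_sum (S : Submodule ℝ V) :
    MeasurePreserving (fun z : (Sᗮ : Submodule ℝ V) × S => (z.1 : V) + (z.2 : V))
      volume volume := by
  have h1 := (S.orthogonalDecomposition.symm.measurePreserving).comp
    (WithLp.volume_preserving_toLp S (Sᗮ : Submodule ℝ V))
  have h2 := h1.comp (Measure.measurePreserving_swap
    (μ := (volume : Measure (Sᗮ : Submodule ℝ V))) (ν := (volume : Measure S)))
  have h3 : (fun z : (Sᗮ : Submodule ℝ V) × S => (z.1 : V) + (z.2 : V))
      = (⇑S.orthogonalDecomposition.symm ∘ @WithLp.toLp 2 (S × (Sᗮ : Submodule ℝ V))) ∘ Prod.swap := by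
    funext z
    have h4 : (S.orthogonalDecomposition.symm (WithLp.toLp 2 z.swap) : V) = (z.2 : V) + (z.1 : V) :=
      rfl
    simp only [Function.comp_apply]
    rw [h4, add_comm]
  rw [h3]
  exact h2

/-- orthogonal projection to the orthogonal complement -/
noncomputable def pr (S : Submodule ℝ V) : V → (Sᗮ : Submodule ℝ V) :=
  fun x => Sᗮ.orthogonalProjectionOnto x

omit [MeasurableSpace V] [BorelSpace V] in
theorem continuous_pr (S : Submodule ℝ V) : Continuous (pr S) :=
  (Sᗮ.orthogonalProjectionOnto).continuous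

omit [MeasurableSpace V] [BorelSpace V] in
theorem pr_sum (S : Submodule ℝ V) (y : (Sᗮ : Submodule ℝ V)) (s : S) :
    pr S ((y : V) + (s : V)) = y := by
  unfold pr
  rw [map_add]
  have h1 : Sᗮ.orthogonalProjectionOnto (y : V) = y :=
    Submodule.orthogonalProjectionOnto_mem_subspace_eq_self y
  have h2 : Sᗮ.orthogonalProjectionOnto (s : V) = 0 :=
    Submodule.orthogonalProjectionOnto_orthogonal_apply_eq_zero s.2
  rw [h1, h2, add_zero]

omit [MeasurableSpace V] [BorelSpace V] in
theorem inner_pr (S : Submodule ℝ V) (ξ : V) (hξ : ξ ∈ Sᗮ) (x : V) :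
    ⟪ξ, x⟫ = ⟪ξ, (pr S x : V)⟫ :=
  (Submodule.inner_orthogonalProjectionOnto_eq_of_mem_left (K := Sᗮ) ⟨ξ, hξ⟩ x).symm

theorem measure_slice_meas (S : Submodule ℝ V) (E : Set V) (hE : MeasurableSet E)
    (B : Set (Sᗮ : Submodule ℝ V)) (hB : MeasurableSet B) :
    volume (pr S ⁻¹' B ∩ E) = ∫⁻ y in B, xray S E y := by
  have hm : MeasurableSet (pr S ⁻¹' B ∩ E) := ((continuous_pr S).measurable hB).inter hE
  rw [← (mp_sum S).measure_preimage hm.nullMeasurableSet]
  have hm2 : MeasurableSet ((fun z : (Sᗮ : Submodule ℝ V) × S => (z.1 : V) + (z.2 : V)) ⁻¹'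
      (pr S ⁻¹' B ∩ E)) := (mp_sum S).measurable hm
  rw [Measure.volume_eq_prod, Measure.prod_apply hm2, ← lintegral_indicator hB]
  congr 1
  funext y
  by_cases hy : y ∈ B
  · rw [Set.indicator_of_mem hy]
    unfold xray
    congr 1
    ext s
    simp only [Set.mem_preimage, Set.mem_inter_iff, pr_sum, hy, true_and]
    rfl
  · rw [Set.indicator_of_notMem hy]
    have : (Prod.mk y ⁻¹' ((fun z : (Sᗮ : Submodule ℝ V) × S => (z.1 : V) + (z.2 : V)) ⁻¹'
      (pr S ⁻¹' B ∩ E))) = ∅ := by
      ext s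
      simp only [Set.mem_preimage, Set.mem_inter_iff, pr_sum, hy, false_and, Set.mem_empty_iff_false]
    rw [this, measure_empty]

theorem xray_congr_ae (S : Submodule ℝ V) (E E₀ : Set V) (h : E₀ =ᵐ[volume] E) :
    ∀ᵐ y, xray S E₀ y = xray S E y := by
  have h1 : ∀ᵐ z : (Sᗮ : Submodule ℝ V) × S,
      ((z.1 : V) + (z.2 : V) ∈ E₀ ↔ (z.1 : V) + (z.2 : V) ∈ E) := by
    have h2 := (mp_sum S).quasiMeasurePreserving.ae (Filter.eventuallyEq_set.mp h)
    exact h2
  rw [Measure.volume_eq_prod] at h1
  filter_upwards [Measure.ae_ae_of_ae_prod h1] with y hy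
  unfold xray
  apply measure_congr
  exact Filter.eventuallyEq_set.mpr hy

theorem measure_slice (S : Submodule ℝ V) (E : Set V) (hE : NullMeasurableSet E)
    (B : Set (Sᗮ : Submodule ℝ V)) (hB : MeasurableSet B) :
    volume (pr S ⁻¹' B ∩ E) = ∫⁻ y in B, xray S E y := by
  obtain ⟨E₀, hE₀, hm, he⟩ := hE.exists_measurable_superset_ae_eq
  have h1 : volume (pr S ⁻¹' B ∩ E) = volume (pr S ⁻¹' B ∩ E₀) := by
    apply measure_congr
    exact (Filter.EventuallyEq.refl _ _).inter he.symm
  rw [h1, measure_slice_meas S E₀ hm B hB]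
  apply lintegral_congr_ae
  exact ae_restrict_of_ae (xray_congr_ae S E E₀ he)

theorem map_pr_eq (S : Submodule ℝ V) (E E' : Set V) (hE : NullMeasurableSet E)
    (hE' : NullMeasurableSet E') (h : ∀ᵐ y, xray S E' y = xray S E y) :
    (volume.restrict E').map (pr S) = (volume.restrict E).map (pr S) := by
  ext B hB
  rw [Measure.map_apply (continuous_pr S).measurable hB,
    Measure.map_apply (continuous_pr S).measurable hB,
    Measure.restrict_apply ((continuous_pr S).measurable hB),
    Measure.restrict_apply ((continuous_pr S).measurable hB),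
    measure_slice S E' hE' B hB, measure_slice S E hE B hB]
  exact lintegral_congr_ae (ae_restrict_of_ae h)

end Pool.Agent.Helper445.MeasA
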