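import Mathlib
import Pool.Agent.Helper445.MeasA

set_option autoImplicit false

namespace Pool.Agent.Helper445.MeasA

open MeasureTheory Module Pool.Agent.Helper445.Quad
open scoped RealInnerProductSpace ENNReal

variable {V : Type*} [NormedAddCommGroup V] [InnerProductSpace ℝ V] [FiniteDimensional ℝ V]
  [MeasurableSpace V] [BorelSpace V]

theorem integrable_cont {W : Type*} [NormedAddCommGroup W] [NormedSpace ℝ W] (F : Set V)
    (hb : Bornology.IsBounded F) (f : V → W) (hf : Continuous f) :
    Integrable f (volume.restrict F) := by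
  have h1 : IsCompact (closure F) := hb.isCompact_closure
  have h2 : IntegrableOn f (closure F) volume := hf.continuousOn.integrableOn_compact h1
  exact h2.mono_set subset_closure

theorem integral_pr_eq (S : Submodule ℝ V) (E E' : Set V)
    (h : (volume.restrict E').map (pr S) = (volume.restrict E).map (pr S))
    (ξ : V) (hξ : ξ ∈ Sᗮ) (g : ℝ → ℝ) (hg : Continuous g) :
    ∫ x in E', g ⟪ξ, x⟫ = ∫ x in E, g ⟪ξ, x⟫ := by
  have h1 : ∀ F : Set V, ∫ x in F, g ⟪ξ, x⟫
      = ∫ y, g ⟪ξ, (y : V)⟫ ∂((volume.restrict F).map (pr S)) := by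
    intro F
    have hc : Continuous (fun y : (Sᗮ : Submodule ℝ V) => g ⟪ξ, (y : V)⟫) :=
      hg.comp (continuous_const.inner continuous_subtype_val)
    rw [integral_map (continuous_pr S).measurable.aemeasurable hc.aestronglyMeasurable]
    congr 1
    funext x
    rw [inner_pr S ξ hξ x]
  rw [h1, h1, h]

/-- second moment operator -/
noncomputable def mom (F : Set V) (hF : Bornology.IsBounded F) : V →ₗ[ℝ] V where
  toFun u := ∫ x in F, ⟪u, x⟫ • x
  map_add' u v := by
    rw [← integral_add (integrable_cont F hF _ (by fun_prop)) (integrable_cont F hF _ (by fun_prop))]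
    congr 1
    funext x
    rw [inner_add_left, add_smul]
  map_smul' a u := by
    rw [RingHom.id_apply, ← integral_smul]
    congr 1
    funext x
    rw [real_inner_smul_left, smul_smul]

theorem inner_mom (F : Set V) (hF : Bornology.IsBounded F) (u w : V) :
    ⟪mom F hF u, w⟫ = ∫ x in F, ⟪u, x⟫ * ⟪w, x⟫ := by
  have h0 : mom F hF u = ∫ x in F, ⟪u, x⟫ • x := rfl
  rw [real_inner_comm, h0, ← integral_inner (integrable_cont F hF _ (by fun_prop))]
  congr 1
  funext x
  rw [real_inner_smul_right]

theorem mom_symm (F : Set V) (hF : Bornology.IsBounded F) : (mom F hF).IsSymmetric := by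
  intro u w
  rw [real_inner_comm (mom F hF w) u, inner_mom, inner_mom]
  congr 1
  funext x
  ring

theorem mom_eq (𝒮 : Set (Submodule ℝ V)) (hq : QuadFree 𝒮) (E E' : Set V)
    (hb : Bornology.IsBounded E) (hb' : Bornology.IsBounded E')
    (h : ∀ S ∈ 𝒮, (volume.restrict E').map (pr S) = (volume.restrict E).map (pr S)) :
    mom E' hb' = mom E hb := by
  have h1 : mom E' hb' - mom E hb = 0 := by
    apply hq _ ((mom_symm E' hb').sub (mom_symm E hb))
    intro S hS v hv
    rw [LinearMap.sub_apply, inner_sub_left, inner_mom, inner_mom]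
    have h2 := integral_pr_eq S E E' (h S hS) v hv (fun t => t * t) (by fun_prop)
    rw [h2, sub_self]
  exact sub_eq_zero.mp h1

theorem mom1_eq (𝒮 : Set (Submodule ℝ V)) (hq : QuadFree 𝒮) (E E' : Set V)
    (hb : Bornology.IsBounded E) (hb' : Bornology.IsBounded E')
    (h : ∀ S ∈ 𝒮, (volume.restrict E').map (pr S) = (volume.restrict E).map (pr S)) :
    ∫ x in E', x = ∫ x in E, x := by
  have h1 : (∫ x in E', x) - ∫ x in E, x = 0 := by
    set d := (∫ x in E', x) - ∫ x in E, x with hd
    have h2 : sy d d = 0 := by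
      apply hq _ (sy_symm d d)
      intro S hS v hv
      have h3 : ⟪d, v⟫ = (0 : ℝ) := by
        rw [hd, inner_sub_left, real_inner_comm, real_inner_comm v,
          ← integral_inner (integrable_cont E' hb' _ (by fun_prop)),
          ← integral_inner (integrable_cont E hb _ (by fun_prop))]
        have h2 := integral_pr_eq S E E' (h S hS) v hv (fun t => t) (by fun_prop)
        rw [h2, sub_self]
      rw [inner_sy, h3]
      ring
    have h4 := inner_sy d d d d
    rw [h2] at h4
    simp only [LinearMap.zero_apply, inner_zero_left] at h4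
    have h5 : ⟪d, d⟫ * ⟪d, d⟫ = (0 : ℝ) := by linarith
    have h6 := mul_self_eq_zero.mp h5
    exact inner_self_eq_zero.mp h6
  exact sub_eq_zero.mp h1

theorem vol_eq [Nontrivial V] (𝒮 : Set (Submodule ℝ V)) (hq : QuadFree 𝒮) (E E' : Set V)
    (h : ∀ S ∈ 𝒮, (volume.restrict E').map (pr S) = (volume.restrict E).map (pr S)) :
    volume E' = volume E := by
  have hne : 𝒮.Nonempty := by
    by_contra hcon
    rw [Set.not_nonempty_iff_eq_empty] at hcon
    subst hcon
    have h1 : (LinearMap.id : V →ₗ[ℝ] V) = 0 := hq _ LinearMap.IsSymmetric.id (by simp)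
    obtain ⟨v, hv⟩ := exists_ne (0 : V)
    exact hv (by simpa using LinearMap.congr_fun h1 v)
  obtain ⟨S, hS⟩ := hne
  have h2 := congrArg (fun μ => μ Set.univ) (h S hS)
  simp only [Measure.map_apply (continuous_pr S).measurable MeasurableSet.univ,
    Set.preimage_univ, Measure.restrict_apply_univ] at h2
  exact h2

/-- the integral of the defining quadratic function depends only on the moments -/
theorem integral_quad (L : V →ₗ[ℝ] V) (c : V) (F : Set V) (hF : Bornology.IsBounded F) :
    ∫ x in F, (1 - ‖L (x - c)‖ ^ 2)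
      = (1 - ‖L c‖ ^ 2) * (volume F).toReal
        - ∑ i, ⟪mom F hF (LinearMap.adjoint L (stdOrthonormalBasis ℝ V i)),
            LinearMap.adjoint L (stdOrthonormalBasis ℝ V i)⟫
        + 2 * ⟪∫ x in F, x, LinearMap.adjoint L (L c)⟫ := by
  have hLc : Continuous L := L.continuous_of_finiteDimensional
  have e : ∀ x, 1 - ‖L (x - c)‖ ^ 2 = (1 - ‖L c‖ ^ 2)
      - ∑ i, ⟪LinearMap.adjoint L (stdOrthonormalBasis ℝ V i), x⟫ *
          ⟪LinearMap.adjoint L (stdOrthonormalBasis ℝ V i), x⟫
      + 2 * ⟪LinearMap.adjoint L (L c), x⟫ := by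
    intro x
    have e1 : ‖L x‖ ^ 2 = ∑ i, ⟪LinearMap.adjoint L (stdOrthonormalBasis ℝ V i), x⟫ *
          ⟪LinearMap.adjoint L (stdOrthonormalBasis ℝ V i), x⟫ := by
      rw [← OrthonormalBasis.sum_sq_norm_inner_right (stdOrthonormalBasis ℝ V) (L x)]
      refine Finset.sum_congr rfl ?_
      intro i _
      rw [LinearMap.adjoint_inner_left, Real.norm_eq_abs, sq_abs, sq]
    rw [← e1, LinearMap.adjoint_inner_left, map_sub, norm_sub_sq_real, real_inner_comm]
    ring
  simp_rw [e]
  rw [integral_add, integral_sub, integral_const_mul, integral_finsetSum]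
  · simp only [inner_mom]
    rw [integral_const, real_inner_comm, ← integral_inner (integrable_cont F hF _ (by fun_prop))]
    simp [Measure.real, mul_comm]
  · intro i _
    exact integrable_cont F hF _ (by fun_prop)
  · exact integrable_cont F hF _ (by fun_prop)
  · exact integrable_cont F hF _ (by fun_prop)
  · exact integrable_cont F hF _ (by fun_prop)
  · exact integrable_cont F hF _ (by fun_prop)

end Pool.Agent.Helper445.MeasA
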