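import Mathlib
import Pool.Agent.Helper445.MeasA2

set_option autoImplicit false

namespace Pool.Agent.Helper445.MeasA

open MeasureTheory Module Pool.Agent.Helper445.Quad
open scoped RealInnerProductSpace ENNReal

variable {V : Type*} [NormedAddCommGroup V] [InnerProductSpace ℝ V] [FiniteDimensional ℝ V]
  [MeasurableSpace V] [BorelSpace V]

/-- an ellipsoid: the image of the closed unit ball under a nonsingular affine map -/
def IsEllipsoid (E : Set V) : Prop :=
  ∃ (A : V ≃ₗ[ℝ] V) (c : V), E = (fun x => A x + c) '' Metric.closedBall 0 1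

omit [MeasurableSpace V] [BorelSpace V] in
theorem IsEllipsoid.isCompact {E : Set V} (h : IsEllipsoid E) : IsCompact E := by
  obtain ⟨A, c, rfl⟩ := h
  apply (isCompact_closedBall (0 : V) 1).image
  have : Continuous A := A.toLinearMap.continuous_of_finiteDimensional
  fun_prop

theorem determined [Nontrivial V] (𝒮 : Set (Submodule ℝ V)) (hq : QuadFree 𝒮) (E E' : Set V)
    (hE : IsEllipsoid E) (hb' : Bornology.IsBounded E') (hm' : NullMeasurableSet E')
    (h : ∀ S ∈ 𝒮, ∀ᵐ y, xray S E' y = xray S E y) : E' =ᵐ[volume] E := by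
  have hcE := hE.isCompact
  have hb : Bornology.IsBounded E := hcE.isBounded
  have hm : NullMeasurableSet E := hcE.measurableSet.nullMeasurableSet
  have hmap : ∀ S ∈ 𝒮, (volume.restrict E').map (pr S) = (volume.restrict E).map (pr S) :=
    fun S hS => map_pr_eq S E E' hm hm' (h S hS)
  obtain ⟨A, c, hA⟩ := hE
  set L : V →ₗ[ℝ] V := A.symm.toLinearMap with hL
  have hLc : Continuous L := L.continuous_of_finiteDimensional
  have hmem : ∀ x, x ∈ E ↔ ‖L (x - c)‖ ≤ 1 := by
    intro x
    rw [hA]
    constructor
    · rintro ⟨u, hu, rfl⟩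
      simp only [add_sub_cancel_right]
      have : L (A u) = u := by simp [hL]
      rw [this]
      simpa using hu
    · intro hx
      refine ⟨L (x - c), by simpa using hx, ?_⟩
      simp [hL]
  set q : V → ℝ := fun x => 1 - ‖L (x - c)‖ ^ 2 with hqdef
  have hqc : Continuous q := by
    rw [hqdef]; fun_prop
  have hv : volume E' = volume E := vol_eq 𝒮 hq E E' hmap
  have hint : ∫ x in E', q x = ∫ x in E, q x := by
    rw [hqdef, integral_quad L c E' hb', integral_quad L c E hb, mom_eq 𝒮 hq E E' hb hb' hmap,
      mom1_eq 𝒮 hq E E' hb hb' hmap, hv]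
  have hqE : ∀ x ∈ E, 0 ≤ q x := by
    intro x hx
    have := (hmem x).mp hx
    have h0 := norm_nonneg (L (x - c))
    simp only [hqdef]
    nlinarith
  have hqE' : ∀ x, x ∉ E → q x < 0 := by
    intro x hx
    rw [hmem x] at hx
    push Not at hx
    simp only [hqdef]
    nlinarith
  have i1 := integral_inter_add_sdiff₀ (μ := volume) (f := q) (s := E) (t := E') hm'
    (integrable_cont E hb q hqc)
  have i2 := integral_inter_add_sdiff₀ (μ := volume) (f := q) (s := E') (t := E) hm
    (integrable_cont E' hb' q hqc)
  rw [Set.inter_comm] at i2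
  have hdm : NullMeasurableSet (E \ E') := hm.diff hm'
  have hdm' : NullMeasurableSet (E' \ E) := hm'.diff hm
  have i3 : 0 ≤ ∫ x in E \ E', q x := by
    apply integral_nonneg_of_ae
    rw [Filter.EventuallyLE, ae_restrict_iff'₀ hdm]
    exact Filter.Eventually.of_forall (fun x hx => hqE x hx.1)
  have i4 : ∫ x in E' \ E, q x = ∫ x in E \ E', q x := by linarith
  have hbd : Bornology.IsBounded (E' \ E) := hb'.subset Set.sdiff_subset
  have i5 : ¬ 0 < ∫ x in E' \ E, -q x := by
    rw [integral_neg]
    linarith
  have i6 : volume (Function.support (fun x => -q x) ∩ (E' \ E)) = 0 := by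
    rw [setIntegral_pos_iff_support_of_nonneg_ae] at i5
    · simpa using i5
    · rw [Filter.EventuallyLE, ae_restrict_iff'₀ hdm']
      refine Filter.Eventually.of_forall (fun x hx => ?_)
      have := hqE' x hx.2
      simp only [Pi.zero_apply]
      linarith
    · exact integrable_cont _ hbd _ (by fun_prop)
  have i7 : volume (E' \ E) = 0 := by
    refine measure_mono_null ?_ i6
    intro x hx
    refine ⟨?_, hx⟩
    have := hqE' x hx.2
    simp only [Function.mem_support]
    intro h0
    linarith
  have i8 : E' ≤ᵐ[volume] E := ae_le_set.mpr i7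
  exact ae_eq_of_ae_subset_of_measure_ge i8 hv.ge hm' (hcE.measure_lt_top).ne

end Pool.Agent.Helper445.MeasA
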