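import Mathlib
import Pool.Agent.Helper445.MeasA3

set_option autoImplicit false

namespace Pool.Agent.Helper445.MeasB

open MeasureTheory Module Pool.Agent.Helper445.Quad Pool.Agent.Helper445.MeasA
open scoped RealInnerProductSpace ENNReal

variable {V : Type*} [NormedAddCommGroup V] [InnerProductSpace ℝ V] [FiniteDimensional ℝ V]
  [MeasurableSpace V] [BorelSpace V]

/-- a shear along the subspace of determinant one does not change the X-ray -/
theorem xray_preimage (S : Submodule ℝ V) (B : V →ₗ[ℝ] V) (hB : ∀ x, B x - x ∈ S)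
    (hdet : |LinearMap.det B| = 1) (E : Set V) (x : (Sᗮ : Submodule ℝ V)) :
    xray S (B ⁻¹' E) x = xray S E x := by
  have hS : S ≤ S.comap B := by
    intro s hs
    have := S.add_mem (hB s) hs
    simpa using this
  have hdetS : LinearMap.det (B.restrict hS) = LinearMap.det B := by
    rw [LinearMap.det_eq_det_mul_det S B hS]
    have : S.mapQ S B hS = LinearMap.id := by
      apply LinearMap.ext
      intro z
      induction z using Submodule.Quotient.induction_on with
      | _ w =>
        rw [Submodule.mapQ_apply, LinearMap.id_apply, Submodule.Quotient.eq]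
        exact hB w
    rw [this, LinearMap.det_id, mul_one]
  have hne : LinearMap.det (B.restrict hS) ≠ 0 := by
    rw [hdetS]
    intro h
    rw [h, abs_zero] at hdet
    exact zero_ne_one hdet
  unfold xray
  set t : S := ⟨B x - x, hB x⟩ with ht
  have h1 : {s : S | (x : V) + (s : V) ∈ B ⁻¹' E}
      = (B.restrict hS) ⁻¹' ((fun s => s + t) ⁻¹' {s : S | (x : V) + (s : V) ∈ E}) := by
    ext s
    have e : (x : V) + (((B.restrict hS s + t : S)) : V) = B ((x : V) + (s : V)) := by
      rw [ht, map_add]
      simp only [Submodule.coe_add, LinearMap.coe_restrict_apply]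
      abel
    simp only [Set.mem_preimage, Set.mem_ofPred_eq]
    rw [e]
  rw [h1, Measure.addHaar_preimage_linearMap _ hne, measure_preimage_add_right, hdetS, abs_inv,
    hdet]
  simp

/-- translations along the subspace do not change the X-ray -/
theorem xray_translate (S : Submodule ℝ V) (w : V) (hw : w ∈ S) (E : Set V)
    (x : (Sᗮ : Submodule ℝ V)) :
    xray S ((fun y => y + w) ⁻¹' E) x = xray S E x := by
  unfold xray
  have h1 : {s : S | (x : V) + (s : V) ∈ (fun y => y + w) ⁻¹' E}
      = (fun s => s + (⟨w, hw⟩ : S)) ⁻¹' {s : S | (x : V) + (s : V) ∈ E} := by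
    ext s
    simp only [Set.mem_preimage, Set.mem_ofPred_eq, Submodule.coe_add]
    rw [add_assoc]
  rw [h1, measure_preimage_add_right]

/-- two ellipsoids with the same shadow and the same volume -/
theorem xray_eq (S : Submodule ℝ V) (F G : V ≃ₗ[ℝ] V) (hF : F.toLinearMap.IsSymmetric)
    (hG : G.toLinearMap.IsSymmetric)
    (hdet : |LinearMap.det F.toLinearMap| = |LinearMap.det G.toLinearMap|)
    (h : ∀ v ∈ Sᗮ, ‖F v‖ = ‖G v‖) (x : (Sᗮ : Submodule ℝ V)) :
    xray S (F '' Metric.closedBall 0 1) x = xray S (G '' Metric.closedBall 0 1) x := by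
  -- the isometry on the image of the orthogonal complement
  let K : Submodule ℝ V := Submodule.map G.toLinearMap Sᗮ
  have hK : ∀ w ∈ K, G.symm w ∈ Sᗮ := by
    rintro w ⟨v, hv, rfl⟩
    simpa using hv
  let U : K →ₗᵢ[ℝ] V :=
    { toLinearMap := F.toLinearMap ∘ₗ G.symm.toLinearMap ∘ₗ K.subtype
      norm_map' := by
        intro w
        have h1 := h _ (hK w.1 w.2)
        simp only [LinearMap.comp_apply, LinearEquiv.coe_coe, Submodule.subtype_apply]
        rw [h1]
        simp }
  let O : V ≃ₗᵢ[ℝ] V := U.extend.toLinearIsometryEquiv rfl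
  have hO : ∀ v ∈ Sᗮ, O (G v) = F v := by
    intro v hv
    have hmem : G v ∈ K := ⟨v, hv, rfl⟩
    have h1 : O (G v) = U.extend ((⟨G v, hmem⟩ : K) : V) := rfl
    rw [h1, LinearIsometry.extend_apply]
    simp [U]
  let A : V ≃ₗ[ℝ] V := (G.symm.trans O.toLinearEquiv).trans F
  have hAG : ∀ u, A (G u) = F (O u) := by
    intro u
    simp [A]
  -- the image
  have hball : O '' Metric.closedBall (0 : V) 1 = Metric.closedBall 0 1 := by
    rw [LinearIsometryEquiv.image_closedBall, map_zero]
  have himg : A '' (G '' Metric.closedBall 0 1) = F '' Metric.closedBall 0 1 := by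
    rw [Set.image_image]
    simp_rw [hAG]
    rw [← Set.image_image (g := F) (f := O), hball]
  -- the shear property
  have hA : ∀ y, A y - y ∈ S := by
    intro y
    rw [← Submodule.orthogonal_orthogonal S, Submodule.mem_orthogonal]
    intro v hv
    obtain ⟨u, rfl⟩ := G.surjective y
    rw [hAG, inner_sub_right]
    have e1 : ⟪v, F (O u)⟫ = ⟪F v, O u⟫ := (hF v (O u)).symm
    have e2 : ⟪v, G u⟫ = ⟪G v, u⟫ := (hG v u).symm
    rw [e1, e2, ← hO v hv, O.inner_map_map, sub_self]
  -- the determinant
  have hball_pos : 0 < volume (Metric.closedBall (0 : V) 1) :=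
    Metric.measure_closedBall_pos _ _ one_pos
  have hball_fin : volume (Metric.closedBall (0 : V) 1) ≠ ∞ := measure_closedBall_lt_top.ne
  have hdetA : |LinearMap.det A.toLinearMap| = 1 := by
    have e1 := Measure.addHaar_image_linearMap (volume : Measure V) A.toLinearMap
      (G '' Metric.closedBall 0 1)
    have e2 := Measure.addHaar_image_linearMap (volume : Measure V) G.toLinearMap
      (Metric.closedBall 0 1)
    have e3 := Measure.addHaar_image_linearMap (volume : Measure V) F.toLinearMap
      (Metric.closedBall 0 1)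
    have e4 : (A.toLinearMap : V → V) '' (G '' Metric.closedBall 0 1)
        = (F.toLinearMap : V → V) '' Metric.closedBall 0 1 := himg
    rw [e4, e3] at e1
    have e5 : volume (G '' Metric.closedBall 0 1)
      = ENNReal.ofReal |LinearMap.det G.toLinearMap| * volume (Metric.closedBall (0 : V) 1) := e2
    rw [e5, hdet, ← mul_assoc] at e1
    have e6 := (ENNReal.mul_left_inj hball_pos.ne' hball_fin).mp e1
    rw [← ENNReal.ofReal_mul (abs_nonneg _)] at e6
    have e7 : |LinearMap.det G.toLinearMap| ≠ 0 := by
      rw [abs_ne_zero]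
      exact (LinearEquiv.isUnit_det' G).ne_zero
    have e8 := (ENNReal.ofReal_eq_ofReal_iff (abs_nonneg _) (by positivity)).mp e6
    have e9 : (|LinearMap.det A.toLinearMap| - 1) * |LinearMap.det G.toLinearMap| = 0 := by
      linarith
    rcases mul_eq_zero.mp e9 with h9 | h9
    · linarith
    · exact absurd h9 e7
  have e1 := xray_preimage S A.toLinearMap hA hdetA (F '' Metric.closedBall 0 1) x
  rw [← e1, ← himg]
  congr 1
  exact Set.preimage_image_eq _ A.injective

end Pool.Agent.Helper445.MeasB
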