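import Mathlib
import Pool.Agent.Helper445.MeasB

set_option autoImplicit false

namespace Pool.Agent.Helper445.MeasB

open MeasureTheory Module Pool.Agent.Helper445.Quad Pool.Agent.Helper445.MeasA
open scoped RealInnerProductSpace ENNReal

section diag

variable {V : Type*} [NormedAddCommGroup V] [InnerProductSpace ℝ V]
  {ι : Type*} [Fintype ι] [DecidableEq ι]

/-- diagonal operator in an orthonormal basis -/
noncomputable def dg (b : OrthonormalBasis ι ℝ V) (d : ι → ℝ) : V →ₗ[ℝ] V :=
  ∑ i, d i • dy (b i) (b i)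

omit [DecidableEq ι] in
theorem inner_dg (b : OrthonormalBasis ι ℝ V) (d : ι → ℝ) (x y : V) :
    ⟪dg b d x, y⟫ = ∑ i, d i * (⟪b i, x⟫ * ⟪b i, y⟫) := by
  simp only [dg, LinearMap.sum_apply, LinearMap.smul_apply, sum_inner, real_inner_smul_left,
    inner_dy]

omit [DecidableEq ι] in
theorem dg_symm (b : OrthonormalBasis ι ℝ V) (d : ι → ℝ) : (dg b d).IsSymmetric := by
  intro x y
  rw [real_inner_comm (dg b d y) x, inner_dg, inner_dg]
  refine Finset.sum_congr rfl ?_
  intro i _
  ring

omit [DecidableEq ι] in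
theorem inner_dg_basis (b : OrthonormalBasis ι ℝ V) (d : ι → ℝ) (x : V) (j : ι) :
    ⟪b j, dg b d x⟫ = d j * ⟪b j, x⟫ := by
  rw [real_inner_comm, inner_dg, Finset.sum_eq_single j]
  · rw [real_inner_self_eq_norm_sq, b.norm_eq_one]; ring
  · intro i _ hi
    rw [b.inner_eq_zero hi]; ring
  · simp

omit [DecidableEq ι] in
theorem dg_basis (b : OrthonormalBasis ι ℝ V) (d : ι → ℝ) (j : ι) :
    dg b d (b j) = d j • b j := by
  apply ext_inner_left ℝ
  intro v
  rw [real_inner_comm, inner_dg, Finset.sum_eq_single j]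
  · rw [real_inner_self_eq_norm_sq, b.norm_eq_one, real_inner_smul_right, real_inner_comm]; ring
  · intro i _ hi
    rw [b.inner_eq_zero hi]; ring
  · simp

omit [DecidableEq ι] in
theorem norm_dg (b : OrthonormalBasis ι ℝ V) (d : ι → ℝ) (x : V) :
    ‖dg b d x‖ ^ 2 = ∑ i, (d i) ^ 2 * ⟪b i, x⟫ ^ 2 := by
  rw [← OrthonormalBasis.sum_sq_norm_inner_right b (dg b d x)]
  refine Finset.sum_congr rfl ?_
  intro i _
  rw [inner_dg_basis, Real.norm_eq_abs, sq_abs]
  ring

theorem det_dg (b : OrthonormalBasis ι ℝ V) (d : ι → ℝ) :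
    LinearMap.det (dg b d) = ∏ i, d i := by
  rw [← LinearMap.det_toMatrix b.toBasis, ← Matrix.det_diagonal]
  congr 1
  ext i j
  rw [LinearMap.toMatrix_apply]
  simp only [OrthonormalBasis.coe_toBasis, dg_basis, map_smul]
  by_cases h : i = j
  · subst h
    simp
  · rw [Matrix.diagonal_apply_ne _ h]
    simp [b.repr_self, h]

end diag

/-- the numbers making the two determinants equal -/
theorem exists_weights {ι : Type*} [Fintype ι] [DecidableEq ι] (β : ι → ℝ) (p q : ι)
    (hp : 0 < β p) (hq : β q < 0) :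
    ∃ c : ι → ℝ, (∀ i, 0 < c i + β i) ∧ (∀ i, 0 < c i - β i) ∧
      ∏ i, (c i + β i) = ∏ i, (c i - β i) := by
  have hpq : p ≠ q := by
    rintro rfl
    linarith
  set s : Finset ι := (Finset.univ.erase p).erase q with hs
  set P : ℝ := ∏ i ∈ s, ((|β i| + 1) + β i) with hP
  set Q : ℝ := ∏ i ∈ s, ((|β i| + 1) - β i) with hQ
  have hP0 : 0 < P := Finset.prod_pos (fun i _ => by
    have := neg_abs_le (β i); linarith)
  have hQ0 : 0 < Q := Finset.prod_pos (fun i _ => by
    have := le_abs_self (β i); linarith)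
  -- c p = β p (2 P / Q + 1), c q = - β q (P + 2 Q) / P
  set c : ι → ℝ := fun i => if i = p then β p * (2 * P / Q + 1)
    else if i = q then -β q * ((P + 2 * Q) / P) else |β i| + 1 with hc
  have hcp : c p = β p * (2 * P / Q + 1) := by simp [hc]
  have hcq : c q = -β q * ((P + 2 * Q) / P) := by simp [hc, hpq.symm]
  have hcs : ∀ i, i ≠ p → i ≠ q → c i = |β i| + 1 := by
    intro i h1 h2
    simp [hc, h1, h2]
  have e1 : c p + β p = β p * (2 * P / Q + 2) := by rw [hcp]; ring
  have e2 : c p - β p = β p * (2 * P / Q) := by rw [hcp]; ring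
  have e3 : c q + β q = -β q * (2 * Q / P) := by
    rw [hcq]; field_simp; ring
  have e4 : c q - β q = -β q * (2 + 2 * Q / P) := by
    rw [hcq]; field_simp; ring
  have hq' : 0 < -β q := by linarith
  have split : ∀ f : ι → ℝ, ∏ i, f i = f p * (f q * ∏ i ∈ s, f i) := by
    intro f
    rw [← Finset.mul_prod_erase Finset.univ f (Finset.mem_univ p),
      ← Finset.mul_prod_erase (Finset.univ.erase p) f (a := q) (by simp [hpq.symm])]
  have hmem : ∀ i ∈ s, i ≠ p ∧ i ≠ q := by
    intro i hi
    simp only [hs, Finset.mem_erase] at hi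
    exact ⟨hi.2.1, hi.1⟩
  refine ⟨c, ?_, ?_, ?_⟩
  · intro i
    by_cases h1 : i = p
    · rw [h1, e1]; positivity
    · by_cases h2 : i = q
      · rw [h2, e3]; positivity
      · rw [hcs i h1 h2]
        have := neg_abs_le (β i); linarith
  · intro i
    by_cases h1 : i = p
    · rw [h1, e2]; positivity
    · by_cases h2 : i = q
      · rw [h2, e4]; positivity
      · rw [hcs i h1 h2]
        have := le_abs_self (β i); linarith
  · rw [split, split (fun i => c i - β i)]
    have h1 : ∏ i ∈ s, (c i + β i) = P := by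
      rw [hP]
      refine Finset.prod_congr rfl ?_
      intro i hi
      rw [hcs i (hmem i hi).1 (hmem i hi).2]
    have h2 : ∏ i ∈ s, (c i - β i) = Q := by
      rw [hQ]
      refine Finset.prod_congr rfl ?_
      intro i hi
      rw [hcs i (hmem i hi).1 (hmem i hi).2]
    rw [h1, h2, e1, e2, e3, e4]
    field_simp

end Pool.Agent.Helper445.MeasB
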