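import Mathlib
import Pool.Agent.Helper445.MeasB2

set_option autoImplicit false

namespace Pool.Agent.Helper445.MeasB

open MeasureTheory Module Pool.Agent.Helper445.Quad Pool.Agent.Helper445.MeasA
open scoped RealInnerProductSpace ENNReal

variable {V : Type*} [NormedAddCommGroup V] [InnerProductSpace ℝ V] [FiniteDimensional ℝ V]
  [MeasurableSpace V] [BorelSpace V]

theorem counter_semi {ι : Type*} [Fintype ι] [DecidableEq ι] (𝒮 : Set (Submodule ℝ V))
    (b : OrthonormalBasis ι ℝ V) (β : ι → ℝ) (hβ : ∀ i, 0 ≤ β i) (p : ι) (hp : 0 < β p)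
    (h : ∀ S ∈ 𝒮, ∀ v ∈ Sᗮ, ⟪dg b β v, v⟫ = 0) :
    ∃ E E' : Set V, IsEllipsoid E ∧ IsEllipsoid E' ∧
      (∀ S ∈ 𝒮, ∀ x, xray S E' x = xray S E x) ∧ ¬ E' =ᵐ[volume] E := by
  have hbp : ∀ S ∈ 𝒮, b p ∈ S := by
    intro S hS
    rw [← Submodule.orthogonal_orthogonal S, Submodule.mem_orthogonal]
    intro v hv
    have h1 := h S hS v hv
    rw [inner_dg] at h1
    have h2 : ∀ i ∈ Finset.univ, 0 ≤ β i * (⟪b i, v⟫ * ⟪b i, v⟫) := fun i _ =>
      mul_nonneg (hβ i) (mul_self_nonneg _)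
    have h3 := (Finset.sum_eq_zero_iff_of_nonneg h2).mp h1 p (Finset.mem_univ p)
    have h4 : ⟪b p, v⟫ * ⟪b p, v⟫ = 0 := by
      rcases mul_eq_zero.mp h3 with h5 | h5
      · exact absurd h5 hp.ne'
      · exact h5
    rw [real_inner_comm]
    exact mul_self_eq_zero.mp h4
  set w : V := (3 : ℝ) • b p with hw
  have hwn : ‖w‖ = 3 := by
    rw [hw, norm_smul, b.norm_eq_one]; norm_num
  refine ⟨Metric.closedBall 0 1, (fun y => y + w) ⁻¹' Metric.closedBall 0 1,
    ⟨LinearEquiv.refl ℝ V, 0, by simp⟩, ⟨LinearEquiv.refl ℝ V, -w, ?_⟩, ?_, ?_⟩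
  · ext y
    simp only [Set.mem_preimage, LinearEquiv.refl_apply, Set.mem_image]
    constructor
    · intro hy
      exact ⟨y + w, hy, by simp⟩
    · rintro ⟨x, hx, rfl⟩
      simpa using hx
  · intro S hS x
    exact xray_translate S w (S.smul_mem _ (hbp S hS)) _ x
  · intro hae
    have h1 : volume (Metric.closedBall (0 : V) 1)
        = volume ((fun y => y + w) ⁻¹' Metric.closedBall 0 1 ∩ Metric.closedBall (0 : V) 1) := by
      apply measure_congr
      have := hae.symm.inter (Filter.EventuallyEq.refl (ae volume) (Metric.closedBall (0 : V) 1))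
      rwa [Set.inter_self] at this
    have h2 : (fun y => y + w) ⁻¹' Metric.closedBall 0 1 ∩ Metric.closedBall (0 : V) 1 = ∅ := by
      rw [Set.eq_empty_iff_forall_notMem]
      rintro y ⟨hy1, hy2⟩
      simp only [Set.mem_preimage, mem_closedBall_zero_iff] at hy1 hy2
      have h3 : ‖w‖ ≤ ‖y + w‖ + ‖y‖ := by
        calc ‖w‖ = ‖(y + w) - y‖ := by congr 1; abel
          _ ≤ _ := norm_sub_le _ _
      linarith
    rw [h2, measure_empty] at h1
    exact (Metric.measure_closedBall_pos volume (0 : V) one_pos).ne' h1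

theorem counter_indef {ι : Type*} [Fintype ι] [DecidableEq ι] (𝒮 : Set (Submodule ℝ V))
    (b : OrthonormalBasis ι ℝ V) (β : ι → ℝ) (p q : ι) (hp : 0 < β p) (hq : β q < 0)
    (h : ∀ S ∈ 𝒮, ∀ v ∈ Sᗮ, ⟪dg b β v, v⟫ = 0) :
    ∃ E E' : Set V, IsEllipsoid E ∧ IsEllipsoid E' ∧
      (∀ S ∈ 𝒮, ∀ x, xray S E' x = xray S E x) ∧ ¬ E' =ᵐ[volume] E := by
  obtain ⟨c, hc1, hc2, hc3⟩ := exists_weights β p q hp hq
  set d₁ : ι → ℝ := fun i => Real.sqrt (c i + β i) with hd1
  set d₂ : ι → ℝ := fun i => Real.sqrt (c i - β i) with hd2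
  have hd1p : ∀ i, 0 < d₁ i := fun i => Real.sqrt_pos.mpr (hc1 i)
  have hd2p : ∀ i, 0 < d₂ i := fun i => Real.sqrt_pos.mpr (hc2 i)
  have hd1s : ∀ i, d₁ i ^ 2 = c i + β i := fun i => Real.sq_sqrt (hc1 i).le
  have hd2s : ∀ i, d₂ i ^ 2 = c i - β i := fun i => Real.sq_sqrt (hc2 i).le
  have hdet1 : LinearMap.det (dg b d₁) ≠ 0 := by
    rw [det_dg]; exact (Finset.prod_pos (fun i _ => hd1p i)).ne'
  have hdet2 : LinearMap.det (dg b d₂) ≠ 0 := by
    rw [det_dg]; exact (Finset.prod_pos (fun i _ => hd2p i)).ne'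
  set F : V ≃ₗ[ℝ] V := LinearMap.equivOfDetNeZero (dg b d₁) hdet1 with hF
  set G : V ≃ₗ[ℝ] V := LinearMap.equivOfDetNeZero (dg b d₂) hdet2 with hG
  have hF' : F.toLinearMap = dg b d₁ := by
    apply LinearMap.ext; intro x; rfl
  have hG' : G.toLinearMap = dg b d₂ := by
    apply LinearMap.ext; intro x; rfl
  have hFx : ∀ x, F x = dg b d₁ x := fun x => rfl
  have hGx : ∀ x, G x = dg b d₂ x := fun x => rfl
  refine ⟨G '' Metric.closedBall 0 1, F '' Metric.closedBall 0 1, ⟨G, 0, by simp⟩,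
    ⟨F, 0, by simp⟩, ?_, ?_⟩
  · intro S hS x
    apply xray_eq S F G
    · rw [hF']; exact dg_symm b d₁
    · rw [hG']; exact dg_symm b d₂
    · rw [hF', hG', det_dg, det_dg, ← sq_eq_sq_iff_abs_eq_abs, ← Finset.prod_pow,
        ← Finset.prod_pow]
      simp_rw [hd1s, hd2s]
      exact hc3
    · intro v hv
      rw [hFx, hGx]
      have h1 := h S hS v hv
      rw [inner_dg] at h1
      have h2 : ‖dg b d₁ v‖ ^ 2 = ‖dg b d₂ v‖ ^ 2 := by
        rw [norm_dg, norm_dg, ← sub_eq_zero, ← Finset.sum_sub_distrib]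
        have h3 : ∀ i, d₁ i ^ 2 * ⟪b i, v⟫ ^ 2 - d₂ i ^ 2 * ⟪b i, v⟫ ^ 2
            = 2 * (β i * (⟪b i, v⟫ * ⟪b i, v⟫)) := by
          intro i
          rw [hd1s, hd2s]; ring
        simp_rw [h3]
        rw [← Finset.mul_sum, h1, mul_zero]
      exact (sq_eq_sq₀ (norm_nonneg _) (norm_nonneg _)).mp h2
  · intro hae
    set U : Set V := {x | ‖F.symm x‖ < 1} ∩ {x | d₂ p < ⟪b p, x⟫} with hU
    have hFc : Continuous F.symm := F.symm.toLinearMap.continuous_of_finiteDimensional
    have hopen : IsOpen U := by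
      apply IsOpen.inter
      · exact isOpen_lt (by fun_prop) continuous_const
      · exact isOpen_lt continuous_const (by fun_prop)
    have hlt : d₂ p < d₁ p := by
      apply Real.sqrt_lt_sqrt (hc2 p).le
      linarith
    have hne : U.Nonempty := by
      set t : ℝ := (d₁ p + d₂ p) / (2 * d₁ p) with ht
      have ht1 : 0 < t := by
        rw [ht]; have := hd1p p; have := hd2p p; positivity
      have ht2 : t < 1 := by
        rw [ht, div_lt_one (by have := hd1p p; positivity)]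
        linarith
      refine ⟨F (t • b p), ?_, ?_⟩
      · simp only [Set.mem_ofPred_eq, LinearEquiv.symm_apply_apply]
        rw [norm_smul, b.norm_eq_one, mul_one, Real.norm_eq_abs, abs_of_pos ht1]
        exact ht2
      · simp only [Set.mem_ofPred_eq]
        rw [hFx, inner_dg_basis, real_inner_smul_right, real_inner_self_eq_norm_sq, b.norm_eq_one, ht]
        have := hd1p p
        have e : d₁ p * ((d₁ p + d₂ p) / (2 * d₁ p) * 1 ^ 2) = (d₁ p + d₂ p) / 2 := by
          field_simp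
        rw [e]
        linarith
    have hsub : U ⊆ (F '' Metric.closedBall 0 1) \ (G '' Metric.closedBall 0 1) := by
      rintro x ⟨hx1, hx2⟩
      refine ⟨⟨F.symm x, ?_, by simp⟩, ?_⟩
      · rw [mem_closedBall_zero_iff]
        exact le_of_lt hx1
      · rintro ⟨u, hu, rfl⟩
        rw [mem_closedBall_zero_iff] at hu
        simp only [Set.mem_ofPred_eq] at hx2
        rw [hGx, inner_dg_basis] at hx2
        have h1 : ⟪b p, u⟫ ≤ 1 := by
          calc ⟪b p, u⟫ ≤ ‖b p‖ * ‖u‖ := real_inner_le_norm _ _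
            _ = ‖u‖ := by rw [b.norm_eq_one, one_mul]
            _ ≤ 1 := hu
        nlinarith [hd2p p]
    have h0 : volume ((F '' Metric.closedBall 0 1) \ (G '' Metric.closedBall 0 1)) = 0 :=
      (ae_eq_set.mp hae).1
    exact (hopen.measure_pos volume hne).ne' (measure_mono_null hsub h0)

theorem exists_counter (𝒮 : Set (Submodule ℝ V)) (hq : ¬ QuadFree 𝒮) :
    ∃ E E' : Set V, IsEllipsoid E ∧ IsEllipsoid E' ∧
      (∀ S ∈ 𝒮, ∀ x, xray S E' x = xray S E x) ∧ ¬ E' =ᵐ[volume] E := by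
  unfold QuadFree at hq
  push Not at hq
  obtain ⟨T, hT, h, h0⟩ := hq
  set b := hT.eigenvectorBasis rfl with hb
  set β := hT.eigenvalues rfl with hβ
  have hTd : T = dg b β := by
    apply b.toBasis.ext
    intro i
    rw [OrthonormalBasis.coe_toBasis, dg_basis]
    exact hT.apply_eigenvectorBasis rfl i
  rw [hTd] at h h0
  by_cases h1 : ∃ p, 0 < β p
  · obtain ⟨p, hp⟩ := h1
    by_cases h2 : ∃ q, β q < 0
    · obtain ⟨q, hq⟩ := h2
      exact counter_indef 𝒮 b β p q hp hq h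
    · push Not at h2
      exact counter_semi 𝒮 b β h2 p hp h
  · push Not at h1
    have h3 : ∃ p, β p ≠ 0 := by
      by_contra hcon
      push Not at hcon
      apply h0
      apply b.toBasis.ext
      intro i
      rw [OrthonormalBasis.coe_toBasis, dg_basis, hcon i, zero_smul, LinearMap.zero_apply]
    obtain ⟨p, hp⟩ := h3
    apply counter_semi 𝒮 b (fun i => -β i) (fun i => by linarith [h1 i]) p
      (by have := lt_of_le_of_ne (h1 p) hp; linarith)
    intro S hS v hv
    have h4 := h S hS v hv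
    rw [inner_dg] at h4 ⊢
    simp only [neg_mul, Finset.sum_neg_distrib, h4, neg_zero]

end Pool.Agent.Helper445.MeasB
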