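import Mathlib
import Pool.Agent.Helper445.Quad

set_option autoImplicit false

namespace Pool.Agent.Helper445.Quad

open Module Pool.Agent.Helper445.Exist Pool.Agent.Helper445.Lift Pool.Agent.Helper445.Arith
open scoped RealInnerProductSpace

section euclid

variable {n : ℕ}

/-- the operator attached to a function on unordered pairs -/
noncomputable def opOf (c : Sym2 (Fin n) → ℝ) : EuclideanSpace ℝ (Fin n) →ₗ[ℝ] EuclideanSpace ℝ (Fin n) where
  toFun x := WithLp.toLp 2 (fun j => ∑ i, x.ofLp i * c s(i, j))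
  map_add' x y := by
    ext j
    simp [add_mul, Finset.sum_add_distrib]
  map_smul' a x := by
    ext j
    simp [Finset.mul_sum, mul_assoc]

theorem inner_opOf (c : Sym2 (Fin n) → ℝ) (x y : EuclideanSpace ℝ (Fin n)) :
    ⟪opOf c x, y⟫ = bval c x.ofLp y.ofLp := by
  rw [PiLp.inner_apply]
  unfold bval
  refine Finset.sum_congr rfl ?_
  intro j _
  simp [opOf, mul_comm]

theorem bval_comm (c : Sym2 (Fin n) → ℝ) (x y : Fin n → ℝ) : bval c x y = bval c y x :=
  (bil_symm c).eq x y

theorem opOf_symm (c : Sym2 (Fin n) → ℝ) : (opOf c).IsSymmetric := by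
  intro x y
  rw [real_inner_comm (opOf c y) x, inner_opOf, inner_opOf, bval_comm]

theorem bval_single (c : Sym2 (Fin n) → ℝ) (i j : Fin n) :
    bval c (Pi.single i 1) (Pi.single j 1) = c s(i, j) := by
  unfold bval
  rw [Finset.sum_eq_single j, Finset.sum_eq_single i]
  · simp
  · intro b _ hb
    simp [Pi.single_eq_of_ne hb]
  · simp
  · intro b _ hb
    simp [Pi.single_eq_of_ne hb]
  · simp

theorem opOf_eq_zero (c : Sym2 (Fin n) → ℝ) (h : opOf c = 0) : c = 0 := by
  funext z
  induction z using Sym2.ind with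
  | _ i j =>
    have h1 := inner_opOf c (WithLp.toLp 2 (Pi.single i 1)) (WithLp.toLp 2 (Pi.single j 1))
    rw [h] at h1
    simp only [LinearMap.zero_apply, inner_zero_left] at h1
    rw [bval_single] at h1
    exact h1.symm

/-- the function on unordered pairs attached to a symmetric operator -/
noncomputable def cOf (T : EuclideanSpace ℝ (Fin n) →ₗ[ℝ] EuclideanSpace ℝ (Fin n))
    (hT : T.IsSymmetric) : Sym2 (Fin n) → ℝ :=
  Sym2.lift ⟨fun i j => ⟪T (WithLp.toLp 2 (Pi.single i 1)), WithLp.toLp 2 (Pi.single j 1)⟫, by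
    intro i j
    beta_reduce
    rw [hT, real_inner_comm]⟩

theorem opOf_cOf (T : EuclideanSpace ℝ (Fin n) →ₗ[ℝ] EuclideanSpace ℝ (Fin n))
    (hT : T.IsSymmetric) : opOf (cOf T hT) = T := by
  apply (EuclideanSpace.basisFun (Fin n) ℝ).toBasis.ext
  intro i
  ext j
  have h1 := inner_opOf (cOf T hT) (WithLp.toLp 2 (Pi.single i 1)) (WithLp.toLp 2 (Pi.single j 1))
  rw [bval_single] at h1
  have h2 : cOf T hT s(i, j)
      = ⟪T (WithLp.toLp 2 (Pi.single i 1)), WithLp.toLp 2 (Pi.single j 1)⟫ := rfl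
  rw [h2] at h1
  have h3 : ∀ w : EuclideanSpace ℝ (Fin n),
      ⟪w, (WithLp.toLp 2 (Pi.single j 1) : EuclideanSpace ℝ (Fin n))⟫ = w.ofLp j := by
    intro w
    rw [real_inner_comm]
    exact (EuclideanSpace.inner_single_left j (1 : ℝ) w).trans (by simp)
  rw [h3, h3] at h1
  simpa using h1

/-- the count of quadratic conditions -/
theorem not_quadFree_of_count (𝒮 : Finset (Submodule ℝ (EuclideanSpace ℝ (Fin n)))) (r k : ℕ)
    (hk : ∀ S ∈ 𝒮, finrank ℝ S = k) (hr : k + r = n)
    (h : 𝒮.card * (r * (r + 1)) < n * (n + 1)) :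
    ¬ QuadFree (𝒮 : Set (Submodule ℝ (EuclideanSpace ℝ (Fin n)))) := by
  classical
  have hfr : ∀ S ∈ 𝒮, finrank ℝ (Sᗮ : Submodule ℝ (EuclideanSpace ℝ (Fin n))) = r := by
    intro S hS
    have e1 := Submodule.finrank_add_finrank_orthogonal S
    rw [hk S hS, finrank_euclideanSpace_fin] at e1
    omega
  let b : ∀ S : 𝒮, Basis (Fin r) ℝ (S.1ᗮ : Submodule ℝ (EuclideanSpace ℝ (Fin n))) :=
    fun S => finBasisOfFinrankEq ℝ _ (hfr S.1 S.2)
  let bb : 𝒮 → Fin r → Fin n → ℝ := fun S a => (b S a : EuclideanSpace ℝ (Fin n)).ofLp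
  let Φ : (Sym2 (Fin n) → ℝ) →ₗ[ℝ] (𝒮 × Sym2 (Fin r) → ℝ) :=
    { toFun := fun c p => bval c (bb p.1 (Quot.out p.2).1) (bb p.1 (Quot.out p.2).2)
      map_add' := by
        intro c d
        funext p
        simp [bval, mul_add, add_mul, Finset.sum_add_distrib]
      map_smul' := by
        intro a c
        funext p
        simp only [bval, Pi.smul_apply, smul_eq_mul, RingHom.id_apply, Finset.mul_sum,
          Finset.sum_mul]
        refine Finset.sum_congr rfl ?_
        intro j _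
        refine Finset.sum_congr rfl ?_
        intro i _
        ring }
  have hlt : finrank ℝ (𝒮 × Sym2 (Fin r) → ℝ) < finrank ℝ (Sym2 (Fin n) → ℝ) := by
    rw [finrank_fintype_fun_eq_card, finrank_fintype_fun_eq_card, Fintype.card_prod,
      Fintype.card_coe, Sym2.card, Sym2.card, Fintype.card_fin, Fintype.card_fin]
    have e1 := Nat.triangle_succ n
    have e2 := Nat.triangle_succ r
    rw [Nat.choose_two_right, Nat.choose_two_right]
    simp only [Nat.add_sub_cancel]
    have e3 : Even ((n + 1) * n) := by rw [mul_comm]; exact Nat.even_mul_succ_self n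
    have e4 : Even ((r + 1) * r) := by rw [mul_comm]; exact Nat.even_mul_succ_self r
    obtain ⟨A, hA⟩ := e3
    obtain ⟨B, hB⟩ := e4
    have hA' : (n + 1) * n / 2 = A := by omega
    have hB' : (r + 1) * r / 2 = B := by omega
    rw [hA', hB']
    have h1 : n * (n + 1) = 2 * A := by rw [mul_comm, hA]; ring
    have h2 : r * (r + 1) = 2 * B := by rw [mul_comm, hB]; ring
    rw [h1, h2] at h
    nlinarith
  have hker := LinearMap.ker_ne_bot_of_finrank_lt (f := Φ) hlt
  obtain ⟨c, hc, hc0⟩ := Submodule.exists_mem_ne_zero_of_ne_bot hker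
  intro hq
  apply hc0
  apply opOf_eq_zero
  apply hq _ (opOf_symm c)
  intro S hS v hv
  rw [inner_opOf]
  -- all values on the basis vanish
  have hbas : ∀ a a' : Fin r, bval c (bb ⟨S, hS⟩ a) (bb ⟨S, hS⟩ a') = 0 := by
    intro a a'
    have h1 : Φ c (⟨S, hS⟩, s(a, a')) = 0 := by
      rw [LinearMap.mem_ker.mp hc]; rfl
    have h2 : (s((Quot.out s(a, a')).1, (Quot.out s(a, a')).2) : Sym2 (Fin r)) = s(a, a') := by
      exact Quot.out_eq _
    rw [Sym2.eq_iff] at h2
    rcases h2 with ⟨h3, h4⟩ | ⟨h3, h4⟩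
    · simp only [Φ, LinearMap.coe_mk, AddHom.coe_mk] at h1
      rw [h3, h4] at h1
      exact h1
    · simp only [Φ, LinearMap.coe_mk, AddHom.coe_mk] at h1
      rw [h3, h4] at h1
      rw [bval_comm]
      exact h1
  have hv' : v.ofLp = ∑ a, (b ⟨S, hS⟩).repr ⟨v, hv⟩ a • bb ⟨S, hS⟩ a := by
    have e := (b ⟨S, hS⟩).sum_repr ⟨v, hv⟩
    have e2 := congrArg (fun w : (Sᗮ : Submodule ℝ (EuclideanSpace ℝ (Fin n))) =>
      (w : EuclideanSpace ℝ (Fin n)).ofLp) e
    simp only at e2
    rw [← e2, Submodule.coe_sum, WithLp.ofLp_sum]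
    refine Finset.sum_congr rfl ?_
    intro a _
    rfl
  have hbil : bval c v.ofLp v.ofLp = bil c v.ofLp v.ofLp := rfl
  rw [hbil, hv']
  simp only [map_sum, map_smul, LinearMap.sum_apply, LinearMap.smul_apply, bil_apply, hbas,
    smul_zero, Finset.sum_const_zero]

end euclid

end Pool.Agent.Helper445.Quad
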