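import Mathlib
import Pool.Agent.Helper445.Quad2

set_option autoImplicit false

namespace Pool.Agent.Helper445.Quad

open Module Pool.Agent.Helper445.Exist Pool.Agent.Helper445.Lift Pool.Agent.Helper445.Arith
open scoped RealInnerProductSpace

variable {n : ℕ}

/-- a subspace of prescribed dimension orthogonal to a small one -/
theorem exists_sub (r k : ℕ) (hr : k + r = n) (V : Submodule ℝ (EuclideanSpace ℝ (Fin n)))
    (hV : finrank ℝ V ≤ r) :
    ∃ S : Submodule ℝ (EuclideanSpace ℝ (Fin n)), finrank ℝ S = k ∧ V ≤ Sᗮ := by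
  have e1 := Submodule.finrank_add_finrank_orthogonal V
  rw [finrank_euclideanSpace_fin] at e1
  have hk : k ≤ finrank ℝ (Vᗮ : Submodule ℝ (EuclideanSpace ℝ (Fin n))) := by omega
  obtain ⟨f, hf⟩ := exists_linearIndependent_of_le_finrank hk
  refine ⟨(Submodule.span ℝ (Set.range f)).map Vᗮ.subtype, ?_, ?_⟩
  · rw [Submodule.finrank_map_subtype_eq]
    rw [finrank_span_eq_card hf, Fintype.card_fin]
  · have h2 : (Submodule.span ℝ (Set.range f)).map Vᗮ.subtype ≤ Vᗮ := Submodule.map_subtype_le _ _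
    exact (Submodule.le_orthogonal_orthogonal V).trans (Submodule.orthogonal_le h2)

theorem exists_quadFree (r m k : ℕ) (hr : k + r = n) (hm : 0 < m) (hc : Crit n r m) :
    ∃ 𝒮 : Finset (Submodule ℝ (EuclideanSpace ℝ (Fin n))), 𝒮.card ≤ m ∧
      (∀ S ∈ 𝒮, finrank ℝ S = k) ∧
      QuadFree (𝒮 : Set (Submodule ℝ (EuclideanSpace ℝ (Fin n)))) := by
  classical
  obtain ⟨M, hM⟩ := exists_real_tuple n r m hm hc
  let V : Fin m → Submodule ℝ (EuclideanSpace ℝ (Fin n)) := fun i =>
    Submodule.span ℝ (Set.range (fun a => (WithLp.toLp 2 (M i a) : EuclideanSpace ℝ (Fin n))))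
  have hV : ∀ i, finrank ℝ (V i) ≤ r := by
    intro i
    refine (finrank_range_le_card _).trans ?_
    rw [Fintype.card_fin]
  choose S hS1 hS2 using fun i => exists_sub r k hr (V i) (hV i)
  refine ⟨Finset.univ.image S, ?_, ?_, ?_⟩
  · refine Finset.card_image_le.trans ?_
    rw [Finset.card_univ, Fintype.card_fin]
  · intro T hT
    obtain ⟨i, _, rfl⟩ := Finset.mem_image.mp hT
    exact hS1 i
  · intro T hT h
    rw [← opOf_cOf T hT]
    have hc0 : cOf T hT = 0 := by
      apply hM
      intro i a b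
      set u : EuclideanSpace ℝ (Fin n) := WithLp.toLp 2 (M i a) with hu
      set w : EuclideanSpace ℝ (Fin n) := WithLp.toLp 2 (M i b) with hw
      have hu' : u ∈ (S i)ᗮ := hS2 i (Submodule.subset_span ⟨a, rfl⟩)
      have hw' : w ∈ (S i)ᗮ := hS2 i (Submodule.subset_span ⟨b, rfl⟩)
      have hSi : S i ∈ ((Finset.univ.image S : Finset _) :
          Set (Submodule ℝ (EuclideanSpace ℝ (Fin n)))) := by
        simp
      have e1 := h (S i) hSi u hu'
      have e2 := h (S i) hSi w hw'
      have e3 := h (S i) hSi (u + w) ((S i)ᗮ.add_mem hu' hw')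
      rw [map_add, inner_add_left, inner_add_right, inner_add_right, e1, e2] at e3
      have e4 : ⟪T w, u⟫ = ⟪T u, w⟫ := by
        rw [hT w u, real_inner_comm]
      rw [e4] at e3
      have e5 : ⟪T u, w⟫ = 0 := by linarith
      have e6 := inner_opOf (cOf T hT) u w
      rw [opOf_cOf, e5] at e6
      exact e6.symm
    rw [hc0]
    apply LinearMap.ext
    intro x
    ext j
    simp [opOf]

/-- the value of the minimum -/
def val (n k : ℕ) : ℕ :=
  if 3 * k ≤ n + 1 then 3
  else if 2 * k ≤ n then 4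
  else (n * (n + 1) + (n - k) * (n - k + 1) - 1) / ((n - k) * (n - k + 1))

theorem quadFree_isLeast (k : ℕ) (hn : 3 ≤ n) (hk : 1 < k) (hkn : k < n) :
    IsLeast {m : ℕ | ∃ 𝒮 : Finset (Submodule ℝ (EuclideanSpace ℝ (Fin n))), 𝒮.card = m ∧
      (∀ S ∈ 𝒮, finrank ℝ S = k) ∧
      QuadFree (𝒮 : Set (Submodule ℝ (EuclideanSpace ℝ (Fin n))))} (val n k) := by
  classical
  set r := n - k with hr
  have hkr : k + r = n := by omega
  have hr1 : 1 ≤ r := by omega
  have hrr : 0 < r * (r + 1) := by positivity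
  -- lower bound
  have hlow : ∀ 𝒮 : Finset (Submodule ℝ (EuclideanSpace ℝ (Fin n))), (∀ S ∈ 𝒮, finrank ℝ S = k) →
      QuadFree (𝒮 : Set (Submodule ℝ (EuclideanSpace ℝ (Fin n)))) → val n k ≤ 𝒮.card := by
    intro 𝒮 h𝒮 hq
    have hthree : 3 ≤ 𝒮.card := by
      by_contra hcon
      push Not at hcon
      have hlt : 𝒮.card ≤ 2 := by omega
      obtain ⟨e, he⟩ : ∃ e : EuclideanSpace ℝ (Fin n), e ≠ 0 := by
        have : Nonempty (Fin n) := ⟨⟨0, by omega⟩⟩
        exact exists_ne 0
      rcases (by omega : 𝒮.card = 0 ∨ 𝒮.card = 1 ∨ 𝒮.card = 2) with h0 | h0 | h0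
      · rw [Finset.card_eq_zero] at h0
        subst h0
        exact not_quadFree_of_pair _ e e he he (by simp) hq
      · obtain ⟨S, rfl⟩ := Finset.card_eq_one.mp h0
        obtain ⟨s, hs, hs'⟩ := exists_ne_of_finrank S hk.le (h𝒮 S (by simp))
        refine not_quadFree_of_pair _ s s hs' hs' ?_ hq
        intro T hT
        have : T = S := by simpa using hT
        rw [this]; exact Or.inl hs
      · obtain ⟨S₁, S₂, _, rfl⟩ := Finset.card_eq_two.mp h0
        obtain ⟨s, hs, hs'⟩ := exists_ne_of_finrank S₁ hk.le (h𝒮 S₁ (by simp))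
        obtain ⟨t, ht, ht'⟩ := exists_ne_of_finrank S₂ hk.le (h𝒮 S₂ (by simp))
        refine not_quadFree_of_pair _ s t hs' ht' ?_ hq
        intro T hT
        have : T = S₁ ∨ T = S₂ := by simpa using hT
        rcases this with h | h
        · rw [h]; exact Or.inl hs
        · rw [h]; exact Or.inr ht
    unfold val
    split_ifs with h1 h2
    · exact hthree
    · by_contra hcon
      have h3 : 𝒮.card = 3 := by omega
      obtain ⟨S₁, S₂, S₃, _, _, _, rfl⟩ := Finset.card_eq_three.mp h3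
      have := not_quadFree_three S₁ S₂ S₃ k hk.le (h𝒮 S₁ (by simp)) (h𝒮 S₂ (by simp))
        (h𝒮 S₃ (by simp)) (by rw [finrank_euclideanSpace_fin]; omega)
      apply this
      convert hq using 1
      simp
    · by_contra hcon
      push Not at hcon
      rw [← hr] at hcon
      have h4 : 𝒮.card * (r * (r + 1)) < n * (n + 1) := by
        have h5 := (Nat.lt_iff_add_one_le.mp hcon)
        have h6 := (Nat.le_div_iff_mul_le hrr).mp h5
        have h7 : 1 ≤ n * (n + 1) := Nat.succ_le_of_lt (by positivity)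
        have h8 : (𝒮.card + 1) * (r * (r + 1)) = 𝒮.card * (r * (r + 1)) + r * (r + 1) := by ring
        rw [h8] at h6
        omega
      exact not_quadFree_of_count 𝒮 r k h𝒮 hkr h4 hq
  -- existence
  have hex : 0 < val n k ∧ Crit n r (val n k) := by
    unfold val
    split_ifs with h1 h2
    · exact ⟨by norm_num, crit_three n r hn (by omega)⟩
    · exact ⟨by norm_num, crit_four n r (by omega)⟩
    · rw [← hr]
      have h3 : n * (n + 1) ≤ (n * (n + 1) + r * (r + 1) - 1) / (r * (r + 1)) * (r * (r + 1)) := by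
        have h4 := Nat.div_add_mod (n * (n + 1) + r * (r + 1) - 1) (r * (r + 1))
        have h5 := Nat.mod_lt (n * (n + 1) + r * (r + 1) - 1) hrr
        rw [mul_comm] at h4
        omega
      refine ⟨?_, crit_big n r _ hr1 (by omega) h3⟩
      apply Nat.pos_of_ne_zero
      intro h0
      rw [h0, zero_mul] at h3
      have : 0 < n * (n + 1) := by positivity
      omega
  constructor
  · obtain ⟨𝒮, hc, h𝒮, hq⟩ := exists_quadFree r (val n k) k hkr hex.1 hex.2
    exact ⟨𝒮, le_antisymm hc (hlow 𝒮 h𝒮 hq), h𝒮, hq⟩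
  · rintro m ⟨𝒮, rfl, h𝒮, hq⟩
    exact hlow 𝒮 h𝒮 hq

end Pool.Agent.Helper445.Quad
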